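import Pool.Agent.H716.SH.Five

/-!
# Five weighted vectors of the plane with cross products at most one: all cases
-/

set_option autoImplicit false

namespace Pool.Agent.H716.SH

section

variable {c1 c2 c3 c4 c5 x3 y3 x4 y4 x5 y5 w s t u v : ℝ}

/-- all three vectors in the same quadrant -/
theorem caseI (hw : 1 / 2 ≤ w) (h1 : 0 ≤ c1) (h2 : 0 ≤ c2) (h3 : 0 ≤ c3) (h4 : 0 ≤ c4)
    (h5 : 0 ≤ c5) (g1 : c1 ≤ w) (g2 : c2 ≤ w) (g3 : c3 ≤ w) (g4 : c4 ≤ w) (g5 : c5 ≤ w)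
    (hs : c1 + c2 + c3 + c4 + c5 = 3 - w)
    (a3 : 0 ≤ x3) (a3' : x3 ≤ 1) (b3 : 0 ≤ y3) (b3' : y3 ≤ 1)
    (a4 : 0 ≤ x4) (a4' : x4 ≤ 1) (b4 : 0 ≤ y4) (b4' : y4 ≤ 1)
    (a5 : 0 ≤ x5) (a5' : x5 ≤ 1) (b5 : 0 ≤ y5) (b5' : y5 ≤ 1) :
    F c1 c2 c3 c4 c5 x3 y3 x4 y4 x5 y5 ≤ 2 := by
  have va : Vx 1 0 := Or.inl ⟨rfl, rfl⟩
  have vb : Vx 0 1 := Or.inr (Or.inl ⟨rfl, rfl⟩)
  have vc : Vx 1 1 := Or.inr (Or.inr ⟨rfl, rfl⟩)
  have s5 : ∀ p q p' q' : ℝ, Vx p q → Vx p' q' → F c1 c2 c3 c4 c5 p q p' q' x5 y5 ≤ 2 := by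
    intro p q p' q' hp hp'
    rw [F35]
    refine step_sq h1 h2 h5 h4 h3 a5 a5' b5 b5' ?_ ?_ ?_ <;> rw [← F35]
    · exact vert hw h1 h2 h3 h4 h5 g1 g2 g3 g4 g5 hs hp hp' va
    · exact vert hw h1 h2 h3 h4 h5 g1 g2 g3 g4 g5 hs hp hp' vb
    · exact vert hw h1 h2 h3 h4 h5 g1 g2 g3 g4 g5 hs hp hp' vc
  have s4 : ∀ p q : ℝ, Vx p q → F c1 c2 c3 c4 c5 p q x4 y4 x5 y5 ≤ 2 := by
    intro p q hp
    rw [F34]
    refine step_sq h1 h2 h4 h3 h5 a4 a4' b4 b4' ?_ ?_ ?_ <;> rw [← F34]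
    · exact s5 _ _ _ _ hp va
    · exact s5 _ _ _ _ hp vb
    · exact s5 _ _ _ _ hp vc
  exact step_sq h1 h2 h3 h4 h5 a3 a3' b3 b3' (s4 _ _ va) (s4 _ _ vb) (s4 _ _ vc)

/-- the third vector in the other quadrant, in the triangle -/
theorem caseII_a (hw : 1 / 2 ≤ w) (h1 : 0 ≤ c1) (h2 : 0 ≤ c2) (h3 : 0 ≤ c3) (h4 : 0 ≤ c4)
    (h5 : 0 ≤ c5) (g1 : c1 ≤ w) (g2 : c2 ≤ w) (g3 : c3 ≤ w) (g4 : c4 ≤ w) (g5 : c5 ≤ w)
    (hs : c1 + c2 + c3 + c4 + c5 = 3 - w)
    (a3 : 0 ≤ x3) (a3' : x3 ≤ 1) (b3 : 0 ≤ y3) (b3' : y3 ≤ 1)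
    (a4 : 0 ≤ x4) (a4' : x4 ≤ 1) (b4 : 0 ≤ y4) (b4' : y4 ≤ 1)
    (s0 : 0 ≤ s) (t0 : 0 ≤ t) (hst : s + t ≤ 1) :
    F c1 c2 c3 c4 c5 x3 y3 x4 y4 s (-t) ≤ 2 := by
  have va : Vx 1 0 := Or.inl ⟨rfl, rfl⟩
  have vb : Vx 0 1 := Or.inr (Or.inl ⟨rfl, rfl⟩)
  have vc : Vx 1 1 := Or.inr (Or.inr ⟨rfl, rfl⟩)
  have s5 : ∀ p q p' q' : ℝ, Vx p q → Vx p' q' → F c1 c2 c3 c4 c5 p q p' q' s (-t) ≤ 2 := by
    intro p q p' q' hp hp'
    rw [F35]
    refine step_tri h1 h2 h5 h4 h3 s0 t0 hst ?_ ?_ <;> rw [← F35]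
    · exact vert hw h1 h2 h3 h4 h5 g1 g2 g3 g4 g5 hs hp hp' va
    · exact vert hw h1 h2 h3 h4 h5 g1 g2 g3 g4 g5 hs hp hp' vb
  have s4 : ∀ p q : ℝ, Vx p q → F c1 c2 c3 c4 c5 p q x4 y4 s (-t) ≤ 2 := by
    intro p q hp
    rw [F34]
    refine step_sq h1 h2 h4 h3 h5 a4 a4' b4 b4' ?_ ?_ ?_ <;> rw [← F34]
    · exact s5 _ _ _ _ hp va
    · exact s5 _ _ _ _ hp vb
    · exact s5 _ _ _ _ hp vc
  exact step_sq h1 h2 h3 h4 h5 a3 a3' b3 b3' (s4 _ _ va) (s4 _ _ vb) (s4 _ _ vc)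

theorem T1 {α β ε : ℝ} (hα : 0 ≤ α) (hβ : 0 ≤ β) (hε : 0 ≤ ε) (s0 : 0 ≤ s) (s1 : s ≤ 1)
    (t0 : 0 ≤ t) (t1 : t ≤ 1) (k : ε * α + α * β + β * ε ≤ 2) :
    α * β + α * ε * t ^ 2 + β * ε * s ^ 2 ≤ 2 := by
  have hs : s ^ 2 ≤ 1 := by nlinarith
  have ht : t ^ 2 ≤ 1 := by nlinarith
  have e1 : 0 ≤ α * ε * (1 - t ^ 2) := mul_nonneg (mul_nonneg hα hε) (by linarith)
  have e2 : 0 ≤ β * ε * (1 - s ^ 2) := mul_nonneg (mul_nonneg hβ hε) (by linarith)
  linarith

theorem T2 {α β γ ε : ℝ} (hα : 0 ≤ α) (hβ : 0 ≤ β) (hγ : 0 ≤ γ) (hε : 0 ≤ ε)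
    (s0 : 0 ≤ s) (s1 : s ≤ 1) (t0 : 0 ≤ t) (t1 : t ≤ 1) (u0 : 0 ≤ u) (u1 : u ≤ 1)
    (hsum : u ^ 2 + s ^ 2 + t ^ 2 ≤ 2)
    (k1 : α * β + α * ε + β * γ + β * ε + γ * ε ≤ 2)
    (k2 : α * β + α * γ + β * γ + β * ε + γ * ε ≤ 2)
    (k3 : α * β + α * γ + α * ε + β * γ + γ * ε ≤ 2) :
    α * β + α * γ * u ^ 2 + α * ε * t ^ 2 + β * γ + β * ε * s ^ 2 + γ * ε ≤ 2 := by
  have hs : 0 ≤ 1 - s ^ 2 := by nlinarith
  have ht : 0 ≤ 1 - t ^ 2 := by nlinarith
  have hu : 0 ≤ 1 - u ^ 2 := by nlinarith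
  have P0 : 0 ≤ α * γ := mul_nonneg hα hγ
  have Q0 : 0 ≤ α * ε := mul_nonneg hα hε
  have R0 : 0 ≤ β * ε := mul_nonneg hβ hε
  have hY : 0 ≤ (1 - u ^ 2) + (1 - t ^ 2) + (1 - s ^ 2) - 1 := by linarith
  rcases le_total (α * γ) (α * ε) with h | h
  · rcases le_total (α * γ) (β * ε) with h' | h'
    · linarith [mul_nonneg (sub_nonneg.2 h) ht, mul_nonneg (sub_nonneg.2 h') hs, mul_nonneg P0 hY]
    · linarith [mul_nonneg (sub_nonneg.2 h') hu, mul_nonneg (sub_nonneg.2 (h'.trans h)) ht,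
        mul_nonneg R0 hY]
  · rcases le_total (α * ε) (β * ε) with h' | h'
    · linarith [mul_nonneg (sub_nonneg.2 h) hu, mul_nonneg (sub_nonneg.2 h') hs, mul_nonneg Q0 hY]
    · linarith [mul_nonneg (sub_nonneg.2 h') ht, mul_nonneg (sub_nonneg.2 (h'.trans h)) hu,
        mul_nonneg R0 hY]

theorem T4 {α β γ δ ε : ℝ} (hα : 0 ≤ α) (hβ : 0 ≤ β) (hγ : 0 ≤ γ) (hδ : 0 ≤ δ) (hε : 0 ≤ ε)
    (s0 : 0 < s) (s1 : s ≤ 1) (t0 : 0 < t) (t1 : t ≤ 1) (u0 : 0 ≤ u) (u1 : u ≤ 1)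
    (v0 : 0 ≤ v) (v1 : v ≤ 1) (hst : 1 ≤ s + t) (hu : s * u = 1 - t) (hv : t * v = 1 - s)
    (k1 : ε * (α + γ) + (α + γ) * (β + δ) + (β + δ) * ε ≤ 2)
    (k2 : γ * (α + ε) + (α + ε) * (β + δ) + (β + δ) * γ ≤ 2)
    (k3 : δ * (β + ε) + (β + ε) * (α + γ) + (α + γ) * δ ≤ 2)
    (k4 : β * (α + ε) + (α + ε) * (γ + δ) + (γ + δ) * β ≤ 2)
    (k5 : α * (β + ε) + (β + ε) * (γ + δ) + (γ + δ) * α ≤ 2) :
    α * β + α * δ + β * γ + γ * ε + δ * ε + α * γ * u ^ 2 + α * ε * t ^ 2 + β * δ * v ^ 2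
      + β * ε * s ^ 2 + γ * δ * (1 - u * v) ^ 2 ≤ 2 := by
  have hsum : u + v - u * v ≤ (1 - t ^ 2) + (1 - s ^ 2) := by
    have hp : 0 < s * t := mul_pos s0 t0
    have e : s * t * ((1 - t ^ 2) + (1 - s ^ 2) - (u + v - u * v))
        = (s + t - 1) ^ 2 * (2 - (s + t)) + ((1 - s) * (1 - t)) * (s + t - 1) * (3 - (s + t))
          + 2 * ((1 - s) * (1 - t)) ^ 2 := by
      linear_combination (-t + t * v) * hu + (-s + (1 - t)) * hv
    have h0 : 0 ≤ s * t * ((1 - t ^ 2) + (1 - s ^ 2) - (u + v - u * v)) := by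
      rw [e]
      have a1 : 0 ≤ (1 - s) * (1 - t) := mul_nonneg (by linarith) (by linarith)
      have a2 : 0 ≤ s + t - 1 := by linarith
      have a3 : 0 ≤ 2 - (s + t) := by linarith
      have a4 : 0 ≤ 3 - (s + t) := by linarith
      positivity
    have := nonneg_of_mul_nonneg_right h0 hp
    linarith
  have ht2 : u * (1 - v) ≤ 1 - t ^ 2 := by
    -- `1 - t = s u` and `1 - v ≤ s (1 + t)`
    have h1 : (1 - v) ≤ s * (1 + t) := by
      have : t * (1 - v) ≤ t * (s * (1 + t)) := by nlinarith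
      exact le_of_mul_le_mul_left this t0
    have h2 : 1 - t ^ 2 = u * (s * (1 + t)) := by linear_combination (-(1 + t)) * hu
    rw [h2]
    exact mul_le_mul_of_nonneg_left h1 u0
  have hs2 : v * (1 - u) ≤ 1 - s ^ 2 := by
    have h1 : (1 - u) ≤ t * (1 + s) := by
      have : s * (1 - u) ≤ s * (t * (1 + s)) := by nlinarith
      exact le_of_mul_le_mul_left this s0
    have h2 : 1 - s ^ 2 = v * (t * (1 + s)) := by linear_combination (-(1 + s)) * hv
    rw [h2]
    exact mul_le_mul_of_nonneg_left h1 v0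
  obtain ⟨l, hl0, hl1, hl2, hl3⟩ : ∃ l : ℝ, 0 ≤ l ∧ l ≤ u * v ∧ l ≤ 1 - t ^ 2 - u * (1 - v) ∧
      u * v - l ≤ 1 - s ^ 2 - v * (1 - u) := by
    refine ⟨min (u * v) (1 - t ^ 2 - u * (1 - v)), le_min (mul_nonneg u0 v0) (by linarith),
      min_le_left _ _, min_le_right _ _, ?_⟩
    rcases le_total (u * v) (1 - t ^ 2 - u * (1 - v)) with h | h
    · rw [min_eq_left h]; linarith
    · rw [min_eq_right h]; nlinarith
  have m1 : 0 ≤ α * γ * ((1 - u ^ 2) - (1 - u)) := mul_nonneg (mul_nonneg hα hγ) (by nlinarith)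
  have m2 : 0 ≤ α * ε * ((1 - t ^ 2) - (u * (1 - v) + l)) :=
    mul_nonneg (mul_nonneg hα hε) (by linarith)
  have m3 : 0 ≤ β * ε * ((1 - s ^ 2) - (v * (1 - u) + (u * v - l))) :=
    mul_nonneg (mul_nonneg hβ hε) (by linarith)
  have m4 : 0 ≤ β * δ * ((1 - v ^ 2) - (1 - v)) := mul_nonneg (mul_nonneg hβ hδ) (by nlinarith)
  have huv1 : u * v ≤ 1 := by nlinarith
  have m5 : 0 ≤ γ * δ * ((1 - (1 - u * v) ^ 2) - u * v) :=
    mul_nonneg (mul_nonneg hγ hδ) (by nlinarith [mul_nonneg (mul_nonneg u0 v0) (sub_nonneg.2 huv1)])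
  have n1 := mul_nonneg (mul_nonneg (sub_nonneg.2 u1) (sub_nonneg.2 v1)) (sub_nonneg.2 k1)
  have n2 := mul_nonneg (mul_nonneg u0 (sub_nonneg.2 v1)) (sub_nonneg.2 k2)
  have n3 := mul_nonneg (mul_nonneg v0 (sub_nonneg.2 u1)) (sub_nonneg.2 k3)
  have n4 := mul_nonneg hl0 (sub_nonneg.2 k4)
  have n5 := mul_nonneg (sub_nonneg.2 hl1) (sub_nonneg.2 k5)
  linarith


/-- the vertices of the cut square -/
def Wx (u v x y : ℝ) : Prop :=
  (x = 1 ∧ y = 0) ∨ (x = 0 ∧ y = 1) ∨ (x = 1 ∧ y = u) ∨ (x = v ∧ y = 1)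


theorem vertW (hw : 1 / 2 ≤ w) (h1 : 0 ≤ c1) (h2 : 0 ≤ c2) (h3 : 0 ≤ c3) (h4 : 0 ≤ c4)
    (h5 : 0 ≤ c5) (g1 : c1 ≤ w) (g2 : c2 ≤ w) (g3 : c3 ≤ w) (g4 : c4 ≤ w) (g5 : c5 ≤ w)
    (hs : c1 + c2 + c3 + c4 + c5 = 3 - w)
    (s0 : 0 < s) (s1 : s ≤ 1) (t0 : 0 < t) (t1 : t ≤ 1) (u0 : 0 ≤ u) (u1 : u ≤ 1)
    (v0 : 0 ≤ v) (v1 : v ≤ 1) (hst : 1 ≤ s + t) (hu : s * u = 1 - t) (hv : t * v = 1 - s)
    (k3 : Wx u v x3 y3) (k4 : Wx u v x4 y4) :
    F c1 c2 c3 c4 c5 x3 y3 x4 y4 s (-t) ≤ 2 := by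
  have hs2 : 0 ≤ 1 - s ^ 2 := by nlinarith
  have ht2 : 0 ≤ 1 - t ^ 2 := by nlinarith
  have hu2 : 0 ≤ 1 - u ^ 2 := by nlinarith
  have hv2 : 0 ≤ 1 - v ^ 2 := by nlinarith
  have hsu : u ^ 2 + s ^ 2 + t ^ 2 ≤ 2 := by
    have e : (s * u) ^ 2 = (1 - t) ^ 2 := by rw [hu]
    nlinarith [mul_nonneg hs2 hu2]
  have hsv : v ^ 2 + t ^ 2 + s ^ 2 ≤ 2 := by
    have e : (t * v) ^ 2 = (1 - s) ^ 2 := by rw [hv]
    nlinarith [mul_nonneg ht2 hv2]
  rcases k3 with ⟨p3, q3⟩ | ⟨p3, q3⟩ | ⟨p3, q3⟩ | ⟨p3, q3⟩ <;>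
    rcases k4 with ⟨p4, q4⟩ | ⟨p4, q4⟩ | ⟨p4, q4⟩ | ⟨p4, q4⟩ <;> rw [p3, q3, p4, q4]

  · have k := cl (x := c5) (y := (c1 + c3 + c4)) (z := (c2)) hw h5 (by linarith) (by linarith) g5 (by linarith)
    have h := T1 (α := (c1 + c3 + c4)) (β := (c2)) (ε := c5) (by linarith) (by linarith) h5 s0.le s1 t0.le t1 (by linarith)
    unfold F
    linarith
  · have k := cl (x := c5) (y := (c1 + c3)) (z := (c2 + c4)) hw h5 (by linarith) (by linarith) g5 (by linarith)
    have h := T1 (α := (c1 + c3)) (β := (c2 + c4)) (ε := c5) (by linarith) (by linarith) h5 s0.le s1 t0.le t1 (by linarith)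
    unfold F
    linarith
  · have k1 := cl (x := c5) (y := (c1 + c3 + c4)) (z := (c2)) hw h5 (by linarith) (by linarith) g5 (by linarith)
    have k2 := cl (x := (c2)) (y := (c1 + c3 + c5)) (z := (c4)) hw (by linarith) (by linarith) (by linarith) (by linarith) (by linarith)
    have k3 := cl (x := (c4)) (y := (c2 + c5)) (z := (c1 + c3)) hw (by linarith) (by linarith) (by linarith) (by linarith) (by linarith)
    have h := T2 (α := (c1 + c3)) (β := (c2)) (γ := (c4)) (ε := c5) (by linarith) (by linarith) (by linarith) h5 s0.le s1 t0.le t1 u0 u1 hsu (by linarith) (by linarith) (by linarith)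
    unfold F
    have e1 : (1 * -t - s * u) ^ 2 = 1 := by
      have : 1 * -t - s * u = -1 := by linarith
      rw [this]; norm_num
    simp only [e1]
    linarith
  · have k1 := cl (x := c5) (y := (c2 + c4)) (z := (c1 + c3)) hw h5 (by linarith) (by linarith) g5 (by linarith)
    have k2 := cl (x := (c4)) (y := (c2 + c5)) (z := (c1 + c3)) hw (by linarith) (by linarith) (by linarith) (by linarith) (by linarith)
    have k3 := cl (x := (c2)) (y := (c1 + c3 + c5)) (z := (c4)) hw (by linarith) (by linarith) (by linarith) (by linarith) (by linarith)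
    have h := T2 (α := (c2)) (β := (c1 + c3)) (γ := (c4)) (ε := c5) (s := t) (t := s) (u := v) (by linarith) (by linarith) (by linarith) h5 t0.le t1 s0.le s1 v0 v1 hsv (by linarith) (by linarith) (by linarith)
    unfold F
    have e2 : (v * -t - s * 1) ^ 2 = 1 := by
      have : v * -t - s * 1 = -1 := by linarith
      rw [this]; norm_num
    simp only [e2]
    linarith
  · have k := cl (x := c5) (y := (c1 + c4)) (z := (c2 + c3)) hw h5 (by linarith) (by linarith) g5 (by linarith)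
    have h := T1 (α := (c1 + c4)) (β := (c2 + c3)) (ε := c5) (by linarith) (by linarith) h5 s0.le s1 t0.le t1 (by linarith)
    unfold F
    linarith
  · have k := cl (x := c5) (y := (c1)) (z := (c2 + c3 + c4)) hw h5 (by linarith) (by linarith) g5 (by linarith)
    have h := T1 (α := (c1)) (β := (c2 + c3 + c4)) (ε := c5) (by linarith) (by linarith) h5 s0.le s1 t0.le t1 (by linarith)
    unfold F
    linarith
  · have k1 := cl (x := c5) (y := (c1 + c4)) (z := (c2 + c3)) hw h5 (by linarith) (by linarith) g5 (by linarith)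
    have k2 := cl (x := (c4)) (y := (c1 + c5)) (z := (c2 + c3)) hw (by linarith) (by linarith) (by linarith) (by linarith) (by linarith)
    have k3 := cl (x := (c1)) (y := (c2 + c3 + c5)) (z := (c4)) hw (by linarith) (by linarith) (by linarith) (by linarith) (by linarith)
    have h := T2 (α := (c1)) (β := (c2 + c3)) (γ := (c4)) (ε := c5) (by linarith) (by linarith) (by linarith) h5 s0.le s1 t0.le t1 u0 u1 hsu (by linarith) (by linarith) (by linarith)
    unfold F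
    have e1 : (1 * -t - s * u) ^ 2 = 1 := by
      have : 1 * -t - s * u = -1 := by linarith
      rw [this]; norm_num
    simp only [e1]
    linarith
  · have k1 := cl (x := c5) (y := (c2 + c3 + c4)) (z := (c1)) hw h5 (by linarith) (by linarith) g5 (by linarith)
    have k2 := cl (x := (c1)) (y := (c2 + c3 + c5)) (z := (c4)) hw (by linarith) (by linarith) (by linarith) (by linarith) (by linarith)
    have k3 := cl (x := (c4)) (y := (c1 + c5)) (z := (c2 + c3)) hw (by linarith) (by linarith) (by linarith) (by linarith) (by linarith)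
    have h := T2 (α := (c2 + c3)) (β := (c1)) (γ := (c4)) (ε := c5) (s := t) (t := s) (u := v) (by linarith) (by linarith) (by linarith) h5 t0.le t1 s0.le s1 v0 v1 hsv (by linarith) (by linarith) (by linarith)
    unfold F
    have e2 : (v * -t - s * 1) ^ 2 = 1 := by
      have : v * -t - s * 1 = -1 := by linarith
      rw [this]; norm_num
    simp only [e2]
    linarith
  · have k1 := cl (x := c5) (y := (c1 + c4 + c3)) (z := (c2)) hw h5 (by linarith) (by linarith) g5 (by linarith)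
    have k2 := cl (x := (c2)) (y := (c1 + c4 + c5)) (z := (c3)) hw (by linarith) (by linarith) (by linarith) (by linarith) (by linarith)
    have k3 := cl (x := (c3)) (y := (c2 + c5)) (z := (c1 + c4)) hw (by linarith) (by linarith) (by linarith) (by linarith) (by linarith)
    have h := T2 (α := (c1 + c4)) (β := (c2)) (γ := (c3)) (ε := c5) (by linarith) (by linarith) (by linarith) h5 s0.le s1 t0.le t1 u0 u1 hsu (by linarith) (by linarith) (by linarith)
    unfold F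
    have e1 : (1 * -t - s * u) ^ 2 = 1 := by
      have : 1 * -t - s * u = -1 := by linarith
      rw [this]; norm_num
    simp only [e1]
    linarith
  · have k1 := cl (x := c5) (y := (c1 + c3)) (z := (c2 + c4)) hw h5 (by linarith) (by linarith) g5 (by linarith)
    have k2 := cl (x := (c3)) (y := (c1 + c5)) (z := (c2 + c4)) hw (by linarith) (by linarith) (by linarith) (by linarith) (by linarith)
    have k3 := cl (x := (c1)) (y := (c2 + c4 + c5)) (z := (c3)) hw (by linarith) (by linarith) (by linarith) (by linarith) (by linarith)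
    have h := T2 (α := (c1)) (β := (c2 + c4)) (γ := (c3)) (ε := c5) (by linarith) (by linarith) (by linarith) h5 s0.le s1 t0.le t1 u0 u1 hsu (by linarith) (by linarith) (by linarith)
    unfold F
    have e1 : (1 * -t - s * u) ^ 2 = 1 := by
      have : 1 * -t - s * u = -1 := by linarith
      rw [this]; norm_num
    simp only [e1]
    linarith
  · have k1 := cl (x := c5) (y := (c1 + c3 + c4)) (z := (c2)) hw h5 (by linarith) (by linarith) g5 (by linarith)
    have k2 := cl (x := (c2)) (y := (c1 + c5)) (z := (c3 + c4)) hw (by linarith) (by linarith) (by linarith) (by linarith) (by linarith)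
    have k3 := cl (x := (c1)) (y := (c2 + c5)) (z := (c3 + c4)) hw (by linarith) (by linarith) (by linarith) (by linarith) (by linarith)
    have h := T2 (α := (c1)) (β := (c2)) (γ := (c3 + c4)) (ε := c5) (by linarith) (by linarith) (by linarith) h5 s0.le s1 t0.le t1 u0 u1 hsu (by linarith) (by linarith) (by linarith)
    unfold F
    have e1 : (1 * -t - s * u) ^ 2 = 1 := by
      have : 1 * -t - s * u = -1 := by linarith
      rw [this]; norm_num
    simp only [e1]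
    linarith
  · have k1 := cl (x := c5) (y := c1 + c3) (z := c2 + c4) hw h5 (by linarith) (by linarith) g5 (by linarith)
    have k2 := cl (x := c3) (y := c1 + c5) (z := c2 + c4) hw (by linarith) (by linarith) (by linarith) (by linarith) (by linarith)
    have k3 := cl (x := c4) (y := c2 + c5) (z := c1 + c3) hw (by linarith) (by linarith) (by linarith) (by linarith) (by linarith)
    have k4 := cl (x := c2) (y := c1 + c5) (z := c3 + c4) hw (by linarith) (by linarith) (by linarith) (by linarith) (by linarith)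
    have k5 := cl (x := c1) (y := c2 + c5) (z := c3 + c4) hw (by linarith) (by linarith) (by linarith) (by linarith) (by linarith)
    have h := T4 (α := c1) (β := c2) (γ := c3) (δ := c4) (ε := c5) h1 h2 (by linarith) (by linarith) h5 s0 s1 t0 t1 u0 u1 v0 v1 hst hu hv k1 k2 k3 k4 k5
    unfold F
    have e1 : (1 * -t - s * u) ^ 2 = 1 := by
      have : 1 * -t - s * u = -1 := by linarith
      rw [this]; norm_num
    have e2 : (v * -t - s * 1) ^ 2 = 1 := by
      have : v * -t - s * 1 = -1 := by linarith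
      rw [this]; norm_num
    rw [e1, e2]
    linarith
  · have k1 := cl (x := c5) (y := (c2 + c3)) (z := (c1 + c4)) hw h5 (by linarith) (by linarith) g5 (by linarith)
    have k2 := cl (x := (c3)) (y := (c2 + c5)) (z := (c1 + c4)) hw (by linarith) (by linarith) (by linarith) (by linarith) (by linarith)
    have k3 := cl (x := (c2)) (y := (c1 + c4 + c5)) (z := (c3)) hw (by linarith) (by linarith) (by linarith) (by linarith) (by linarith)
    have h := T2 (α := (c2)) (β := (c1 + c4)) (γ := (c3)) (ε := c5) (s := t) (t := s) (u := v) (by linarith) (by linarith) (by linarith) h5 t0.le t1 s0.le s1 v0 v1 hsv (by linarith) (by linarith) (by linarith)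
    unfold F
    have e2 : (v * -t - s * 1) ^ 2 = 1 := by
      have : v * -t - s * 1 = -1 := by linarith
      rw [this]; norm_num
    simp only [e2]
    linarith
  · have k1 := cl (x := c5) (y := (c2 + c4 + c3)) (z := (c1)) hw h5 (by linarith) (by linarith) g5 (by linarith)
    have k2 := cl (x := (c1)) (y := (c2 + c4 + c5)) (z := (c3)) hw (by linarith) (by linarith) (by linarith) (by linarith) (by linarith)
    have k3 := cl (x := (c3)) (y := (c1 + c5)) (z := (c2 + c4)) hw (by linarith) (by linarith) (by linarith) (by linarith) (by linarith)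
    have h := T2 (α := (c2 + c4)) (β := (c1)) (γ := (c3)) (ε := c5) (s := t) (t := s) (u := v) (by linarith) (by linarith) (by linarith) h5 t0.le t1 s0.le s1 v0 v1 hsv (by linarith) (by linarith) (by linarith)
    unfold F
    have e2 : (v * -t - s * 1) ^ 2 = 1 := by
      have : v * -t - s * 1 = -1 := by linarith
      rw [this]; norm_num
    simp only [e2]
    linarith
  · have k1 := cl (x := c5) (y := c1 + c4) (z := c2 + c3) hw h5 (by linarith) (by linarith) g5 (by linarith)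
    have k2 := cl (x := c4) (y := c1 + c5) (z := c2 + c3) hw (by linarith) (by linarith) (by linarith) (by linarith) (by linarith)
    have k3 := cl (x := c3) (y := c2 + c5) (z := c1 + c4) hw (by linarith) (by linarith) (by linarith) (by linarith) (by linarith)
    have k4 := cl (x := c2) (y := c1 + c5) (z := c4 + c3) hw (by linarith) (by linarith) (by linarith) (by linarith) (by linarith)
    have k5 := cl (x := c1) (y := c2 + c5) (z := c4 + c3) hw (by linarith) (by linarith) (by linarith) (by linarith) (by linarith)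
    have h := T4 (α := c1) (β := c2) (γ := c4) (δ := c3) (ε := c5) h1 h2 (by linarith) (by linarith) h5 s0 s1 t0 t1 u0 u1 v0 v1 hst hu hv k1 k2 k3 k4 k5
    unfold F
    have e1 : (1 * -t - s * u) ^ 2 = 1 := by
      have : 1 * -t - s * u = -1 := by linarith
      rw [this]; norm_num
    have e2 : (v * -t - s * 1) ^ 2 = 1 := by
      have : v * -t - s * 1 = -1 := by linarith
      rw [this]; norm_num
    rw [e1, e2]
    linarith
  · have k1 := cl (x := c5) (y := (c2 + c3 + c4)) (z := (c1)) hw h5 (by linarith) (by linarith) g5 (by linarith)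
    have k2 := cl (x := (c1)) (y := (c2 + c5)) (z := (c3 + c4)) hw (by linarith) (by linarith) (by linarith) (by linarith) (by linarith)
    have k3 := cl (x := (c2)) (y := (c1 + c5)) (z := (c3 + c4)) hw (by linarith) (by linarith) (by linarith) (by linarith) (by linarith)
    have h := T2 (α := (c2)) (β := (c1)) (γ := (c3 + c4)) (ε := c5) (s := t) (t := s) (u := v) (by linarith) (by linarith) (by linarith) h5 t0.le t1 s0.le s1 v0 v1 hsv (by linarith) (by linarith) (by linarith)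
    unfold F
    have e2 : (v * -t - s * 1) ^ 2 = 1 := by
      have : v * -t - s * 1 = -1 := by linarith
      rw [this]; norm_num
    simp only [e2]
    linarith


end

end Pool.Agent.H716.SH
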