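import Pool.Agent.H716.SH.Quad

/-!
# Five weighted vectors of the plane with cross products at most one
-/

set_option autoImplicit false

namespace Pool.Agent.H716.SH

/-- the weighted sum of the squares of the cross products of `(1, 0)`, `(0, 1)` and three vectors -/
def F (c1 c2 c3 c4 c5 x3 y3 x4 y4 x5 y5 : ℝ) : ℝ :=
  c1 * c2 + c3 * (c1 * y3 ^ 2 + c2 * x3 ^ 2) + c4 * (c1 * y4 ^ 2 + c2 * x4 ^ 2)
    + c5 * (c1 * y5 ^ 2 + c2 * x5 ^ 2) + c3 * c4 * (x3 * y4 - x4 * y3) ^ 2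
    + c3 * c5 * (x3 * y5 - x5 * y3) ^ 2 + c4 * c5 * (x4 * y5 - x5 * y4) ^ 2

theorem F34 (c1 c2 c3 c4 c5 x3 y3 x4 y4 x5 y5 : ℝ) :
    F c1 c2 c3 c4 c5 x3 y3 x4 y4 x5 y5 = F c1 c2 c4 c3 c5 x4 y4 x3 y3 x5 y5 := by
  unfold F; ring

theorem F35 (c1 c2 c3 c4 c5 x3 y3 x4 y4 x5 y5 : ℝ) :
    F c1 c2 c3 c4 c5 x3 y3 x4 y4 x5 y5 = F c1 c2 c5 c4 c3 x5 y5 x4 y4 x3 y3 := by
  unfold F; ring

section

variable {c1 c2 c3 c4 c5 x3 y3 x4 y4 x5 y5 w : ℝ}

theorem psd3 (h1 : 0 ≤ c1) (h2 : 0 ≤ c2) (h3 : 0 ≤ c3) (h4 : 0 ≤ c4) (h5 : 0 ≤ c5) (X Y : ℝ) :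
    0 ≤ (c3 * (c2 + c4 * y4 ^ 2 + c5 * y5 ^ 2)) * X ^ 2
      + 2 * (-(c3 * (c4 * x4 * y4 + c5 * x5 * y5))) * X * Y
      + (c3 * (c1 + c4 * x4 ^ 2 + c5 * x5 ^ 2)) * Y ^ 2 := by
  have e : (c3 * (c2 + c4 * y4 ^ 2 + c5 * y5 ^ 2)) * X ^ 2
      + 2 * (-(c3 * (c4 * x4 * y4 + c5 * x5 * y5))) * X * Y
      + (c3 * (c1 + c4 * x4 ^ 2 + c5 * x5 ^ 2)) * Y ^ 2
      = c3 * (c2 * X ^ 2 + c1 * Y ^ 2 + c4 * (X * y4 - x4 * Y) ^ 2 + c5 * (X * y5 - x5 * Y) ^ 2) := by
    ring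
  rw [e]
  positivity

theorem step_sq (h1 : 0 ≤ c1) (h2 : 0 ≤ c2) (h3 : 0 ≤ c3) (h4 : 0 ≤ c4) (h5 : 0 ≤ c5)
    (hx0 : 0 ≤ x3) (hx1 : x3 ≤ 1) (hy0 : 0 ≤ y3) (hy1 : y3 ≤ 1)
    (a : F c1 c2 c3 c4 c5 1 0 x4 y4 x5 y5 ≤ 2) (b : F c1 c2 c3 c4 c5 0 1 x4 y4 x5 y5 ≤ 2)
    (c : F c1 c2 c3 c4 c5 1 1 x4 y4 x5 y5 ≤ 2) :
    F c1 c2 c3 c4 c5 x3 y3 x4 y4 x5 y5 ≤ 2 := by
  have := quad_sq (K := 2 - F c1 c2 0 c4 c5 0 0 x4 y4 x5 y5)
    (psd3 (x4 := x4) (y4 := y4) (x5 := x5) (y5 := y5) h1 h2 h3 h4 h5) hx0 hx1 hy0 hy1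
    (by unfold F at *; linarith) (by unfold F at *; linarith) (by unfold F at *; linarith)
  unfold F at *
  linarith

theorem step_tri (h1 : 0 ≤ c1) (h2 : 0 ≤ c2) (h3 : 0 ≤ c3) (h4 : 0 ≤ c4) (h5 : 0 ≤ c5)
    (hx0 : 0 ≤ x3) (hy0 : 0 ≤ y3) (hxy : x3 + y3 ≤ 1)
    (a : F c1 c2 c3 c4 c5 1 0 x4 y4 x5 y5 ≤ 2) (b : F c1 c2 c3 c4 c5 0 1 x4 y4 x5 y5 ≤ 2) :
    F c1 c2 c3 c4 c5 x3 (-y3) x4 y4 x5 y5 ≤ 2 := by
  have hp := psd3 (x4 := x4) (y4 := -y4) (x5 := x5) (y5 := -y5) h1 h2 h3 h4 h5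
  have := quad_t (K := 2 - F c1 c2 0 c4 c5 0 0 x4 y4 x5 y5) hp hx0 hy0 hxy
    (by unfold F at *; linarith) (by unfold F at *; linarith)
  unfold F at *
  linarith

theorem step_cut {s t u v : ℝ} (h1 : 0 ≤ c1) (h2 : 0 ≤ c2) (h3 : 0 ≤ c3) (h4 : 0 ≤ c4)
    (h5 : 0 ≤ c5) (hx0 : 0 ≤ x3) (hx1 : x3 ≤ 1) (hy0 : 0 ≤ y3) (hy1 : y3 ≤ 1)
    (hst : s * y3 + t * x3 ≤ 1) (hu : s * u = 1 - t) (hv : t * v = 1 - s) (hu0 : 0 ≤ u)
    (hv0 : 0 ≤ v) (huv : 0 < 1 - u * v)
    (a : F c1 c2 c3 c4 c5 1 0 x4 y4 x5 y5 ≤ 2) (b : F c1 c2 c3 c4 c5 0 1 x4 y4 x5 y5 ≤ 2)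
    (c : F c1 c2 c3 c4 c5 1 u x4 y4 x5 y5 ≤ 2) (d : F c1 c2 c3 c4 c5 v 1 x4 y4 x5 y5 ≤ 2) :
    F c1 c2 c3 c4 c5 x3 y3 x4 y4 x5 y5 ≤ 2 := by
  have := quad_cut (K := 2 - F c1 c2 0 c4 c5 0 0 x4 y4 x5 y5)
    (psd3 (x4 := x4) (y4 := y4) (x5 := x5) (y5 := y5) h1 h2 h3 h4 h5) hx0 hx1 hy0 hy1 hst hu hv
    hu0 hv0 huv
    (by unfold F at *; linarith) (by unfold F at *; linarith) (by unfold F at *; linarith)
    (by unfold F at *; linarith)
  unfold F at *
  linarith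

/-- the vertices of the square -/
def Vx (x y : ℝ) : Prop := (x = 1 ∧ y = 0) ∨ (x = 0 ∧ y = 1) ∨ (x = 1 ∧ y = 1)


theorem vert (hw : 1 / 2 ≤ w) (h1 : 0 ≤ c1) (h2 : 0 ≤ c2) (h3 : 0 ≤ c3) (h4 : 0 ≤ c4)
    (h5 : 0 ≤ c5) (g1 : c1 ≤ w) (g2 : c2 ≤ w) (g3 : c3 ≤ w) (g4 : c4 ≤ w) (g5 : c5 ≤ w)
    (hs : c1 + c2 + c3 + c4 + c5 = 3 - w) (k3 : Vx x3 y3) (k4 : Vx x4 y4) (k5 : Vx x5 y5) :
    F c1 c2 c3 c4 c5 x3 y3 x4 y4 x5 y5 ≤ 2 := by
  rcases k3 with ⟨rfl, rfl⟩ | ⟨rfl, rfl⟩ | ⟨rfl, rfl⟩ <;>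
    rcases k4 with ⟨rfl, rfl⟩ | ⟨rfl, rfl⟩ | ⟨rfl, rfl⟩ <;>
    rcases k5 with ⟨rfl, rfl⟩ | ⟨rfl, rfl⟩ | ⟨rfl, rfl⟩

  · have h := cl (x := (c2)) (y := (c1 + c3 + c4 + c5)) (z := (0)) hw (by linarith) (by linarith)
      (by linarith) (by linarith) (by linarith)
    unfold F
    linarith
  · have h := cl (x := (0)) (y := (c1 + c3 + c4)) (z := (c2 + c5)) hw (by linarith) (by linarith)
      (by linarith) (by linarith) (by linarith)
    unfold F
    linarith
  · have h := cl (x := (c2)) (y := (c1 + c3 + c4)) (z := (c5)) hw (by linarith) (by linarith)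
      (by linarith) (by linarith) (by linarith)
    unfold F
    linarith
  · have h := cl (x := (0)) (y := (c1 + c3 + c5)) (z := (c2 + c4)) hw (by linarith) (by linarith)
      (by linarith) (by linarith) (by linarith)
    unfold F
    linarith
  · have h := cl (x := (0)) (y := (c1 + c3)) (z := (c2 + c4 + c5)) hw (by linarith) (by linarith)
      (by linarith) (by linarith) (by linarith)
    unfold F
    linarith
  · have h := cl (x := (c5)) (y := (c1 + c3)) (z := (c2 + c4)) hw (by linarith) (by linarith)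
      (by linarith) (by linarith) (by linarith)
    unfold F
    linarith
  · have h := cl (x := (c2)) (y := (c1 + c3 + c5)) (z := (c4)) hw (by linarith) (by linarith)
      (by linarith) (by linarith) (by linarith)
    unfold F
    linarith
  · have h := cl (x := (c4)) (y := (c1 + c3)) (z := (c2 + c5)) hw (by linarith) (by linarith)
      (by linarith) (by linarith) (by linarith)
    unfold F
    linarith
  · have h := cl (x := (c2)) (y := (c1 + c3)) (z := (c4 + c5)) hw (by linarith) (by linarith)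
      (by linarith) (by linarith) (by linarith)
    unfold F
    linarith
  · have h := cl (x := (0)) (y := (c1 + c4 + c5)) (z := (c2 + c3)) hw (by linarith) (by linarith)
      (by linarith) (by linarith) (by linarith)
    unfold F
    linarith
  · have h := cl (x := (0)) (y := (c1 + c4)) (z := (c2 + c3 + c5)) hw (by linarith) (by linarith)
      (by linarith) (by linarith) (by linarith)
    unfold F
    linarith
  · have h := cl (x := (c5)) (y := (c1 + c4)) (z := (c2 + c3)) hw (by linarith) (by linarith)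
      (by linarith) (by linarith) (by linarith)
    unfold F
    linarith
  · have h := cl (x := (0)) (y := (c1 + c5)) (z := (c2 + c3 + c4)) hw (by linarith) (by linarith)
      (by linarith) (by linarith) (by linarith)
    unfold F
    linarith
  · have h := cl (x := (c1)) (y := (c2 + c3 + c4 + c5)) (z := (0)) hw (by linarith) (by linarith)
      (by linarith) (by linarith) (by linarith)
    unfold F
    linarith
  · have h := cl (x := (c1)) (y := (c2 + c3 + c4)) (z := (c5)) hw (by linarith) (by linarith)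
      (by linarith) (by linarith) (by linarith)
    unfold F
    linarith
  · have h := cl (x := (c4)) (y := (c1 + c5)) (z := (c2 + c3)) hw (by linarith) (by linarith)
      (by linarith) (by linarith) (by linarith)
    unfold F
    linarith
  · have h := cl (x := (c1)) (y := (c2 + c3 + c5)) (z := (c4)) hw (by linarith) (by linarith)
      (by linarith) (by linarith) (by linarith)
    unfold F
    linarith
  · have h := cl (x := (c1)) (y := (c2 + c3)) (z := (c4 + c5)) hw (by linarith) (by linarith)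
      (by linarith) (by linarith) (by linarith)
    unfold F
    linarith
  · have h := cl (x := (c2)) (y := (c1 + c4 + c5)) (z := (c3)) hw (by linarith) (by linarith)
      (by linarith) (by linarith) (by linarith)
    unfold F
    linarith
  · have h := cl (x := (c3)) (y := (c1 + c4)) (z := (c2 + c5)) hw (by linarith) (by linarith)
      (by linarith) (by linarith) (by linarith)
    unfold F
    linarith
  · have h := cl (x := (c2)) (y := (c1 + c4)) (z := (c3 + c5)) hw (by linarith) (by linarith)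
      (by linarith) (by linarith) (by linarith)
    unfold F
    linarith
  · have h := cl (x := (c3)) (y := (c1 + c5)) (z := (c2 + c4)) hw (by linarith) (by linarith)
      (by linarith) (by linarith) (by linarith)
    unfold F
    linarith
  · have h := cl (x := (c1)) (y := (c2 + c4 + c5)) (z := (c3)) hw (by linarith) (by linarith)
      (by linarith) (by linarith) (by linarith)
    unfold F
    linarith
  · have h := cl (x := (c1)) (y := (c2 + c4)) (z := (c3 + c5)) hw (by linarith) (by linarith)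
      (by linarith) (by linarith) (by linarith)
    unfold F
    linarith
  · have h := cl (x := (c2)) (y := (c1 + c5)) (z := (c3 + c4)) hw (by linarith) (by linarith)
      (by linarith) (by linarith) (by linarith)
    unfold F
    linarith
  · have h := cl (x := (c1)) (y := (c2 + c5)) (z := (c3 + c4)) hw (by linarith) (by linarith)
      (by linarith) (by linarith) (by linarith)
    unfold F
    linarith
  · have h := cl (x := (c1)) (y := (c2)) (z := (c3 + c4 + c5)) hw (by linarith) (by linarith)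
      (by linarith) (by linarith) (by linarith)
    unfold F
    linarith


end

end Pool.Agent.H716.SH
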