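import Pool.Agent.H716.SH.Cases

/-!
# Five weighted vectors of the plane: two of them have a large cross product
-/

set_option autoImplicit false

open Finset

namespace Pool.Agent.H716.SH

section

variable {c1 c2 c3 c4 c5 x3 y3 x4 y4 x5 y5 w s t : ℝ}

/-- the third vector in the other quadrant -/
theorem caseII (hw : 1 / 2 ≤ w) (h1 : 0 ≤ c1) (h2 : 0 ≤ c2) (h3 : 0 ≤ c3) (h4 : 0 ≤ c4)
    (h5 : 0 ≤ c5) (g1 : c1 ≤ w) (g2 : c2 ≤ w) (g3 : c3 ≤ w) (g4 : c4 ≤ w) (g5 : c5 ≤ w)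
    (hs : c1 + c2 + c3 + c4 + c5 = 3 - w)
    (a3 : 0 ≤ x3) (a3' : x3 ≤ 1) (b3 : 0 ≤ y3) (b3' : y3 ≤ 1)
    (a4 : 0 ≤ x4) (a4' : x4 ≤ 1) (b4 : 0 ≤ y4) (b4' : y4 ≤ 1)
    (s0 : 0 ≤ s) (s1 : s ≤ 1) (t0 : 0 ≤ t) (t1 : t ≤ 1)
    (k3 : s * y3 + t * x3 ≤ 1) (k4 : s * y4 + t * x4 ≤ 1) :
    F c1 c2 c3 c4 c5 x3 y3 x4 y4 s (-t) ≤ 2 := by
  rcases le_or_gt (s + t) 1 with h | h
  · exact caseII_a hw h1 h2 h3 h4 h5 g1 g2 g3 g4 g5 hs a3 a3' b3 b3' a4 a4' b4 b4' s0 t0 h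
  · have hs0 : 0 < s := by linarith
    have ht0 : 0 < t := by linarith
    obtain ⟨u, hu⟩ : ∃ u, u = (1 - t) / s := ⟨_, rfl⟩
    obtain ⟨v, hv⟩ : ∃ v, v = (1 - s) / t := ⟨_, rfl⟩
    have u0 : 0 ≤ u := by rw [hu]; exact div_nonneg (by linarith) hs0.le
    have v0 : 0 ≤ v := by rw [hv]; exact div_nonneg (by linarith) ht0.le
    have u1 : u < 1 := by rw [hu, div_lt_one hs0]; linarith
    have v1 : v < 1 := by rw [hv, div_lt_one ht0]; linarith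
    have hu' : s * u = 1 - t := by rw [hu]; field_simp
    have hv' : t * v = 1 - s := by rw [hv]; field_simp
    have huv : 0 < 1 - u * v := by nlinarith
    have wa : Wx u v 1 0 := Or.inl ⟨rfl, rfl⟩
    have wb : Wx u v 0 1 := Or.inr (Or.inl ⟨rfl, rfl⟩)
    have wc : Wx u v 1 u := Or.inr (Or.inr (Or.inl ⟨rfl, rfl⟩))
    have wd : Wx u v v 1 := Or.inr (Or.inr (Or.inr ⟨rfl, rfl⟩))
    have s4 : ∀ p q : ℝ, Wx u v p q → F c1 c2 c3 c4 c5 p q x4 y4 s (-t) ≤ 2 := by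
      intro p q hp
      rw [F34]
      refine step_cut h1 h2 h4 h3 h5 a4 a4' b4 b4' k4 hu' hv' u0 v0 huv ?_ ?_ ?_ ?_ <;> rw [← F34]
      · exact vertW hw h1 h2 h3 h4 h5 g1 g2 g3 g4 g5 hs hs0 s1 ht0 t1 u0 u1.le v0 v1.le h.le hu' hv'
          hp wa
      · exact vertW hw h1 h2 h3 h4 h5 g1 g2 g3 g4 g5 hs hs0 s1 ht0 t1 u0 u1.le v0 v1.le h.le hu' hv'
          hp wb
      · exact vertW hw h1 h2 h3 h4 h5 g1 g2 g3 g4 g5 hs hs0 s1 ht0 t1 u0 u1.le v0 v1.le h.le hu' hv'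
          hp wc
      · exact vertW hw h1 h2 h3 h4 h5 g1 g2 g3 g4 g5 hs hs0 s1 ht0 t1 u0 u1.le v0 v1.le h.le hu' hv'
          hp wd
    exact step_cut h1 h2 h3 h4 h5 a3 a3' b3 b3' k3 hu' hv' u0 v0 huv (s4 _ _ wa) (s4 _ _ wb)
      (s4 _ _ wc) (s4 _ _ wd)

theorem F45 (c1 c2 c3 c4 c5 x3 y3 x4 y4 x5 y5 : ℝ) :
    F c1 c2 c3 c4 c5 x3 y3 x4 y4 x5 y5 = F c1 c2 c3 c5 c4 x3 y3 x5 y5 x4 y4 := by
  unfold F; ring

theorem Fneg (c1 c2 c3 c4 c5 x3 y3 x4 y4 x5 y5 : ℝ) :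
    F c1 c2 c3 c4 c5 x3 y3 x4 y4 x5 y5 = F c1 c2 c3 c4 c5 x3 (-y3) x4 (-y4) x5 (-y5) := by
  unfold F; ring

/-- first coordinates nonnegative -/
theorem five_pos (hw : 1 / 2 ≤ w) (h1 : 0 ≤ c1) (h2 : 0 ≤ c2) (h3 : 0 ≤ c3) (h4 : 0 ≤ c4)
    (h5 : 0 ≤ c5) (g1 : c1 ≤ w) (g2 : c2 ≤ w) (g3 : c3 ≤ w) (g4 : c4 ≤ w) (g5 : c5 ≤ w)
    (hs : c1 + c2 + c3 + c4 + c5 = 3 - w)
    (a3 : 0 ≤ x3) (a3' : x3 ≤ 1) (b3 : -1 ≤ y3) (b3' : y3 ≤ 1)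
    (a4 : 0 ≤ x4) (a4' : x4 ≤ 1) (b4 : -1 ≤ y4) (b4' : y4 ≤ 1)
    (a5 : 0 ≤ x5) (a5' : x5 ≤ 1) (b5 : -1 ≤ y5) (b5' : y5 ≤ 1)
    (k34 : |x3 * y4 - x4 * y3| ≤ 1) (k35 : |x3 * y5 - x5 * y3| ≤ 1)
    (k45 : |x4 * y5 - x5 * y4| ≤ 1) :
    F c1 c2 c3 c4 c5 x3 y3 x4 y4 x5 y5 ≤ 2 := by
  obtain ⟨p1, p2⟩ := abs_le.1 k34
  obtain ⟨q1, q2⟩ := abs_le.1 k35
  obtain ⟨r1, r2⟩ := abs_le.1 k45
  rcases le_total 0 y3 with z3 | z3 <;> rcases le_total 0 y4 with z4 | z4 <;>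
    rcases le_total 0 y5 with z5 | z5
  · exact caseI hw h1 h2 h3 h4 h5 g1 g2 g3 g4 g5 hs a3 a3' z3 b3' a4 a4' z4 b4' a5 a5' z5 b5'
  · have := caseII hw h1 h2 h3 h4 h5 g1 g2 g3 g4 g5 hs a3 a3' z3 b3' a4 a4' z4 b4' a5 a5'
      (t := -y5) (by linarith) (by linarith) (by linarith) (by linarith)
    rwa [neg_neg] at this
  · rw [F45]
    have := caseII hw h1 h2 h3 h5 h4 g1 g2 g3 g5 g4 (by linarith) a3 a3' z3 b3' a5 a5' z5 b5' a4 a4'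
      (t := -y4) (by linarith) (by linarith) (by linarith) (by linarith)
    rwa [neg_neg] at this
  · rw [F35, Fneg]
    exact caseII hw h1 h2 h5 h4 h3 g1 g2 g5 g4 g3 (by linarith) a5 a5' (y3 := -y5) (by linarith)
      (by linarith) a4 a4' (y4 := -y4) (by linarith) (by linarith) a3 a3' (t := y3) z3 b3'
      (by linarith) (by linarith)
  · rw [F35]
    have := caseII hw h1 h2 h5 h4 h3 g1 g2 g5 g4 g3 (by linarith) a5 a5' z5 b5' a4 a4' z4 b4' a3 a3'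
      (t := -y3) (by linarith) (by linarith) (by linarith) (by linarith)
    rwa [neg_neg] at this
  · rw [F45, Fneg]
    exact caseII hw h1 h2 h3 h5 h4 g1 g2 g3 g5 g4 (by linarith) a3 a3' (y3 := -y3) (by linarith)
      (by linarith) a5 a5' (y4 := -y5) (by linarith) (by linarith) a4 a4' (t := y4) z4 b4'
      (by linarith) (by linarith)
  · rw [Fneg]
    exact caseII hw h1 h2 h3 h4 h5 g1 g2 g3 g4 g5 hs a3 a3' (y3 := -y3) (by linarith)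
      (by linarith) a4 a4' (y4 := -y4) (by linarith) (by linarith) a5 a5' (t := y5) z5 b5'
      (by linarith) (by linarith)
  · rw [Fneg]
    exact caseI hw h1 h2 h3 h4 h5 g1 g2 g3 g4 g5 hs a3 a3' (by linarith) (by linarith) a4 a4'
      (by linarith) (by linarith) a5 a5' (by linarith) (by linarith)

theorem Fn3 (c1 c2 c3 c4 c5 x3 y3 x4 y4 x5 y5 : ℝ) :
    F c1 c2 c3 c4 c5 x3 y3 x4 y4 x5 y5 = F c1 c2 c3 c4 c5 (-x3) (-y3) x4 y4 x5 y5 := by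
  unfold F; ring
theorem Fn4 (c1 c2 c3 c4 c5 x3 y3 x4 y4 x5 y5 : ℝ) :
    F c1 c2 c3 c4 c5 x3 y3 x4 y4 x5 y5 = F c1 c2 c3 c4 c5 x3 y3 (-x4) (-y4) x5 y5 := by
  unfold F; ring
theorem Fn5 (c1 c2 c3 c4 c5 x3 y3 x4 y4 x5 y5 : ℝ) :
    F c1 c2 c3 c4 c5 x3 y3 x4 y4 x5 y5 = F c1 c2 c3 c4 c5 x3 y3 x4 y4 (-x5) (-y5) := by
  unfold F; ring

/-- **Five weighted vectors, the first two `(1, 0)` and `(0, 1)`, all cross products at most one.** -/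
theorem five (hw : 1 / 2 ≤ w) (h1 : 0 ≤ c1) (h2 : 0 ≤ c2) (h3 : 0 ≤ c3) (h4 : 0 ≤ c4)
    (h5 : 0 ≤ c5) (g1 : c1 ≤ w) (g2 : c2 ≤ w) (g3 : c3 ≤ w) (g4 : c4 ≤ w) (g5 : c5 ≤ w)
    (hs : c1 + c2 + c3 + c4 + c5 = 3 - w)
    (a3 : |x3| ≤ 1) (b3 : |y3| ≤ 1) (a4 : |x4| ≤ 1) (b4 : |y4| ≤ 1) (a5 : |x5| ≤ 1) (b5 : |y5| ≤ 1)
    (k34 : |x3 * y4 - x4 * y3| ≤ 1) (k35 : |x3 * y5 - x5 * y3| ≤ 1)
    (k45 : |x4 * y5 - x5 * y4| ≤ 1) :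
    F c1 c2 c3 c4 c5 x3 y3 x4 y4 x5 y5 ≤ 2 := by
  have key3 : ∀ {x3 y3 x4 y4 x5 y5 : ℝ}, 0 ≤ x4 → 0 ≤ x5 → |x3| ≤ 1 → |y3| ≤ 1 → |x4| ≤ 1 →
      |y4| ≤ 1 → |x5| ≤ 1 → |y5| ≤ 1 → |x3 * y4 - x4 * y3| ≤ 1 → |x3 * y5 - x5 * y3| ≤ 1 →
      |x4 * y5 - x5 * y4| ≤ 1 → F c1 c2 c3 c4 c5 x3 y3 x4 y4 x5 y5 ≤ 2 := by
    intro x3 y3 x4 y4 x5 y5 z4 z5 a3 b3 a4 b4 a5 b5 k34 k35 k45
    rcases le_total 0 x3 with z | z
    · exact five_pos hw h1 h2 h3 h4 h5 g1 g2 g3 g4 g5 hs z (abs_le.1 a3).2 (abs_le.1 b3).1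
        (abs_le.1 b3).2 z4 (abs_le.1 a4).2 (abs_le.1 b4).1 (abs_le.1 b4).2 z5 (abs_le.1 a5).2
        (abs_le.1 b5).1 (abs_le.1 b5).2 k34 k35 k45
    · rw [Fn3]
      refine five_pos hw h1 h2 h3 h4 h5 g1 g2 g3 g4 g5 hs (by linarith) (by linarith [(abs_le.1 a3).1])
        (by linarith [(abs_le.1 b3).2]) (by linarith [(abs_le.1 b3).1]) z4 (abs_le.1 a4).2
        (abs_le.1 b4).1 (abs_le.1 b4).2 z5 (abs_le.1 a5).2 (abs_le.1 b5).1 (abs_le.1 b5).2 ?_ ?_ k45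
      · rw [← abs_neg]; convert k34 using 2; ring
      · rw [← abs_neg]; convert k35 using 2; ring
  have key4 : ∀ {x3 y3 x4 y4 x5 y5 : ℝ}, 0 ≤ x5 → |x3| ≤ 1 → |y3| ≤ 1 → |x4| ≤ 1 →
      |y4| ≤ 1 → |x5| ≤ 1 → |y5| ≤ 1 → |x3 * y4 - x4 * y3| ≤ 1 → |x3 * y5 - x5 * y3| ≤ 1 →
      |x4 * y5 - x5 * y4| ≤ 1 → F c1 c2 c3 c4 c5 x3 y3 x4 y4 x5 y5 ≤ 2 := by
    intro x3 y3 x4 y4 x5 y5 z5 a3 b3 a4 b4 a5 b5 k34 k35 k45
    rcases le_total 0 x4 with z | z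
    · exact key3 z z5 a3 b3 a4 b4 a5 b5 k34 k35 k45
    · rw [Fn4]
      refine key3 (by linarith) z5 a3 b3 (by rwa [abs_neg]) (by rwa [abs_neg]) a5 b5 ?_ k35 ?_
      · rw [← abs_neg]; convert k34 using 2; ring
      · rw [← abs_neg]; convert k45 using 2; ring
  rcases le_total 0 x5 with z | z
  · exact key4 z a3 b3 a4 b4 a5 b5 k34 k35 k45
  · rw [Fn5]
    refine key4 (by linarith) a3 b3 a4 b4 (by rwa [abs_neg]) (by rwa [abs_neg]) k34 ?_ ?_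
    · rw [← abs_neg]; convert k35 using 2; ring
    · rw [← abs_neg]; convert k45 using 2; ring

end

/-- the same for five vectors the first two of which have the largest cross product -/
theorem planar_max {a b c : Fin 5 → ℝ} {w : ℝ} (hw : 1 / 2 ≤ w) (hc : ∀ i, 0 ≤ c i)
    (hcw : ∀ i, c i ≤ w) (hs : ∑ i, c i = 3 - w) (h11 : ∑ i, c i * a i ^ 2 = 1)
    (h22 : ∑ i, c i * b i ^ 2 = 1) (h12 : ∑ i, c i * (a i * b i) = 0)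
    (hpos : 0 < (a 0 * b 1 - a 1 * b 0) ^ 2)
    (hmax : ∀ i j, (a i * b j - a j * b i) ^ 2 ≤ (a 0 * b 1 - a 1 * b 0) ^ 2) :
    1 / 2 ≤ (a 0 * b 1 - a 1 * b 0) ^ 2 := by
  rw [Fin.sum_univ_five] at hs h11 h22 h12
  obtain ⟨d, hd⟩ : ∃ d, d = a 0 * b 1 - a 1 * b 0 := ⟨_, rfl⟩
  rw [← hd] at hpos hmax ⊢
  have hd0 : d ≠ 0 := by rintro rfl; simp at hpos
  have hs' : ∀ i : Fin 5, ∃ x : ℝ, x * d = a i * b 1 - a 1 * b i := fun i =>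
    ⟨(a i * b 1 - a 1 * b i) / d, by field_simp⟩
  have ht' : ∀ i : Fin 5, ∃ x : ℝ, x * d = a 0 * b i - a i * b 0 := fun i =>
    ⟨(a 0 * b i - a i * b 0) / d, by field_simp⟩
  choose x hx using hs'
  choose y hy using ht'
  have hxy : ∀ i j, (x i * y j - x j * y i) * d = a i * b j - a j * b i := by
    intro i j
    apply mul_left_cancel₀ hd0
    linear_combination (y j * d) * hx i + (a i * b 1 - a 1 * b i) * hy j - (y i * d) * hx j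
      - (a j * b 1 - a 1 * b j) * hy i - (a i * b j - a j * b i) * hd
  have habs : ∀ z : ℝ, (z * d) ^ 2 ≤ d ^ 2 → |z| ≤ 1 := by
    intro z hz
    rw [mul_pow] at hz
    have : z ^ 2 ≤ 1 := by
      by_contra hcon
      push Not at hcon
      nlinarith
    exact (sq_le_one_iff_abs_le_one z).1 this
  have hxa : ∀ i, |x i| ≤ 1 := fun i => habs _ (by rw [hx]; exact hmax i 1)
  have hya : ∀ i, |y i| ≤ 1 := fun i => habs _ (by rw [hy]; exact hmax 0 i)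
  have hxya : ∀ i j, |x i * y j - x j * y i| ≤ 1 := fun i j =>
    habs _ (by rw [hxy]; exact hmax i j)
  have hF := five (c1 := c 0) (c2 := c 1) (c3 := c 2) (c4 := c 3) (c5 := c 4) hw (hc 0) (hc 1)
    (hc 2) (hc 3) (hc 4) (hcw 0) (hcw 1) (hcw 2) (hcw 3) (hcw 4) hs (hxa 2) (hya 2) (hxa 3) (hya 3)
    (hxa 4) (hya 4) (hxya 2 3) (hxya 2 4) (hxya 3 4)
  have e : F (c 0) (c 1) (c 2) (c 3) (c 4) (x 2) (y 2) (x 3) (y 3) (x 4) (y 4) * d ^ 2 = 1 := by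
    have e1 : F (c 0) (c 1) (c 2) (c 3) (c 4) (x 2) (y 2) (x 3) (y 3) (x 4) (y 4) * d ^ 2
        = c 0 * c 1 * d ^ 2 + c 2 * (c 0 * (y 2 * d) ^ 2 + c 1 * (x 2 * d) ^ 2)
          + c 3 * (c 0 * (y 3 * d) ^ 2 + c 1 * (x 3 * d) ^ 2)
          + c 4 * (c 0 * (y 4 * d) ^ 2 + c 1 * (x 4 * d) ^ 2)
          + c 2 * c 3 * ((x 2 * y 3 - x 3 * y 2) * d) ^ 2
          + c 2 * c 4 * ((x 2 * y 4 - x 4 * y 2) * d) ^ 2
          + c 3 * c 4 * ((x 3 * y 4 - x 4 * y 3) * d) ^ 2 := by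
      unfold F; ring
    rw [e1, hx, hx, hx, hy, hy, hy, hxy, hxy, hxy, hd]
    have e2 : (c 0 * a 0 ^ 2 + c 1 * a 1 ^ 2 + c 2 * a 2 ^ 2 + c 3 * a 3 ^ 2 + c 4 * a 4 ^ 2)
        * (c 0 * b 0 ^ 2 + c 1 * b 1 ^ 2 + c 2 * b 2 ^ 2 + c 3 * b 3 ^ 2 + c 4 * b 4 ^ 2)
        - (c 0 * (a 0 * b 0) + c 1 * (a 1 * b 1) + c 2 * (a 2 * b 2) + c 3 * (a 3 * b 3)
          + c 4 * (a 4 * b 4)) ^ 2 = 1 := by
      rw [h11, h22, h12]; norm_num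
    rw [← e2]
    ring
  nlinarith

/-- **Five weighted vectors of the plane.** -/
theorem planar {a b c : Fin 5 → ℝ} {w : ℝ} (hw : 1 / 2 ≤ w) (hc : ∀ i, 0 ≤ c i)
    (hcw : ∀ i, c i ≤ w) (hs : ∑ i, c i = 3 - w) (h11 : ∑ i, c i * a i ^ 2 = 1)
    (h22 : ∑ i, c i * b i ^ 2 = 1) (h12 : ∑ i, c i * (a i * b i) = 0) :
    ∃ i j, 1 / 2 ≤ (a i * b j - a j * b i) ^ 2 := by
  obtain ⟨⟨i0, j0⟩, hmax⟩ := Finite.exists_max
    fun p : Fin 5 × Fin 5 => (a p.1 * b p.2 - a p.2 * b p.1) ^ 2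
  simp only at hmax
  refine ⟨i0, j0, ?_⟩
  have hsum : ∑ i, ∑ j, c i * c j * (a i * b j - a j * b i) ^ 2 = 2 := by
    have e : ∑ i, ∑ j, c i * c j * (a i * b j - a j * b i) ^ 2
        = 2 * ((∑ i, c i * a i ^ 2) * (∑ i, c i * b i ^ 2) - (∑ i, c i * (a i * b i)) ^ 2) := by
      simp only [Fin.sum_univ_five]
      ring
    rw [e, h11, h22, h12]; norm_num
  have hpos : 0 < (a i0 * b j0 - a j0 * b i0) ^ 2 := by
    by_contra hcon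
    have h0 : ∀ i j, (a i * b j - a j * b i) ^ 2 = 0 := fun i j =>
      le_antisymm ((hmax (i, j)).trans (not_lt.1 hcon)) (sq_nonneg _)
    simp only [h0, mul_zero, sum_const_zero] at hsum
    norm_num at hsum
  have hne : i0 ≠ j0 := by
    rintro rfl
    simp at hpos
  obtain ⟨σ, hσ0, hσ1⟩ : ∃ σ : Equiv.Perm (Fin 5), σ 0 = i0 ∧ σ 1 = j0 := by
    refine ⟨Equiv.swap 0 i0 * Equiv.swap 1 (Equiv.swap 0 i0 j0), ?_, ?_⟩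
    · have h0 : (0 : Fin 5) ≠ Equiv.swap 0 i0 j0 := by
        intro h
        have := congrArg (Equiv.swap 0 i0) h
        rw [Equiv.swap_apply_left, Equiv.swap_apply_self] at this
        exact hne this
      have h1 : Equiv.swap 1 (Equiv.swap 0 i0 j0) 0 = 0 :=
        Equiv.swap_apply_of_ne_of_ne (by decide) h0
      rw [Equiv.Perm.mul_apply, h1, Equiv.swap_apply_left]
    · rw [Equiv.Perm.mul_apply, Equiv.swap_apply_left, Equiv.swap_apply_self]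
  have := planar_max (a := a ∘ σ) (b := b ∘ σ) (c := c ∘ σ) (w := w) hw (fun i => hc _)
    (fun i => hcw _) (by rw [← hs]; exact Equiv.sum_comp σ c)
    (by rw [← h11]; exact Equiv.sum_comp σ fun i => c i * a i ^ 2)
    (by rw [← h22]; exact Equiv.sum_comp σ fun i => c i * b i ^ 2)
    (by rw [← h12]; exact Equiv.sum_comp σ fun i => c i * (a i * b i))
    (by simp only [Function.comp_apply, hσ0, hσ1]; exact hpos)
    (by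
      intro i j
      simp only [Function.comp_apply, hσ0, hσ1]
      exact hmax (σ i, σ j))
  simpa only [Function.comp_apply, hσ0, hσ1] using this

end Pool.Agent.H716.SH
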