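import Mathlib

/-!
# Five weighted vectors of the plane with cross products at most one: quadratic forms on polygons
-/

set_option autoImplicit false

namespace Pool.Agent.H716.SH

/-- a positive semidefinite quadratic form on the triangle `0, P, Q` -/
theorem quad_tri {A B C K a b P1 P2 Q1 Q2 : ℝ}
    (hpsd : ∀ X Y : ℝ, 0 ≤ A * X ^ 2 + 2 * B * X * Y + C * Y ^ 2) (ha : 0 ≤ a) (hb : 0 ≤ b)
    (hab : a + b ≤ 1) (hP : A * P1 ^ 2 + 2 * B * P1 * P2 + C * P2 ^ 2 ≤ K)
    (hQ : A * Q1 ^ 2 + 2 * B * Q1 * Q2 + C * Q2 ^ 2 ≤ K) :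
    A * (a * P1 + b * Q1) ^ 2 + 2 * B * (a * P1 + b * Q1) * (a * P2 + b * Q2)
      + C * (a * P2 + b * Q2) ^ 2 ≤ K := by
  have gP := hpsd P1 P2
  have gQ := hpsd Q1 Q2
  have hK : 0 ≤ K := gP.trans hP
  have h1 : 0 ≤ (1 - a - b) * K := mul_nonneg (by linarith) hK
  have h2 : 0 ≤ a * (K - (A * P1 ^ 2 + 2 * B * P1 * P2 + C * P2 ^ 2)) :=
    mul_nonneg ha (by linarith)
  have h3 : 0 ≤ b * (K - (A * Q1 ^ 2 + 2 * B * Q1 * Q2 + C * Q2 ^ 2)) :=
    mul_nonneg hb (by linarith)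
  have h4 : 0 ≤ a * (1 - a - b) * (A * P1 ^ 2 + 2 * B * P1 * P2 + C * P2 ^ 2) :=
    mul_nonneg (mul_nonneg ha (by linarith)) gP
  have h5 : 0 ≤ b * (1 - a - b) * (A * Q1 ^ 2 + 2 * B * Q1 * Q2 + C * Q2 ^ 2) :=
    mul_nonneg (mul_nonneg hb (by linarith)) gQ
  have h6 : 0 ≤ a * b * (A * (P1 - Q1) ^ 2 + 2 * B * (P1 - Q1) * (P2 - Q2) + C * (P2 - Q2) ^ 2) :=
    mul_nonneg (mul_nonneg ha hb) (hpsd _ _)
  linarith

/-- on the unit square -/
theorem quad_sq {A B C K x y : ℝ}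
    (hpsd : ∀ X Y : ℝ, 0 ≤ A * X ^ 2 + 2 * B * X * Y + C * Y ^ 2)
    (hx0 : 0 ≤ x) (hx1 : x ≤ 1) (hy0 : 0 ≤ y) (hy1 : y ≤ 1)
    (h10 : A ≤ K) (h01 : C ≤ K) (h11 : A + 2 * B + C ≤ K) :
    A * x ^ 2 + 2 * B * x * y + C * y ^ 2 ≤ K := by
  rcases le_total y x with h | h
  · have := quad_tri (A := A) (B := B) (C := C) (K := K) (a := x - y) (b := y) (P1 := 1) (P2 := 0)
      (Q1 := 1) (Q2 := 1) hpsd (by linarith) hy0 (by linarith) (by linarith) (by linarith)
    have e1 : (x - y) * 1 + y * 1 = x := by ring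
    have e2 : (x - y) * 0 + y * 1 = y := by ring
    rwa [e1, e2] at this
  · have := quad_tri (A := A) (B := B) (C := C) (K := K) (a := y - x) (b := x) (P1 := 0) (P2 := 1)
      (Q1 := 1) (Q2 := 1) hpsd (by linarith) hx0 (by linarith) (by linarith) (by linarith)
    have e1 : (y - x) * 0 + x * 1 = x := by ring
    have e2 : (y - x) * 1 + x * 1 = y := by ring
    rwa [e1, e2] at this

/-- on the triangle `x + y ≤ 1` -/
theorem quad_t {A B C K x y : ℝ}
    (hpsd : ∀ X Y : ℝ, 0 ≤ A * X ^ 2 + 2 * B * X * Y + C * Y ^ 2)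
    (hx0 : 0 ≤ x) (hy0 : 0 ≤ y) (hxy : x + y ≤ 1) (h10 : A ≤ K) (h01 : C ≤ K) :
    A * x ^ 2 + 2 * B * x * y + C * y ^ 2 ≤ K := by
  have := quad_tri (A := A) (B := B) (C := C) (K := K) (a := x) (b := y) (P1 := 1) (P2 := 0)
    (Q1 := 0) (Q2 := 1) hpsd hx0 hy0 hxy (by linarith) (by linarith)
  have e1 : x * 1 + y * 0 = x := by ring
  have e2 : x * 0 + y * 1 = y := by ring
  rwa [e1, e2] at this

/-- on the cut square -/
theorem quad_cut {A B C K x y s t u v : ℝ}
    (hpsd : ∀ X Y : ℝ, 0 ≤ A * X ^ 2 + 2 * B * X * Y + C * Y ^ 2)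
    (hx0 : 0 ≤ x) (hx1 : x ≤ 1) (hy0 : 0 ≤ y) (hy1 : y ≤ 1) (hst : s * y + t * x ≤ 1)
    (hu : s * u = 1 - t) (hv : t * v = 1 - s) (hu0 : 0 ≤ u) (hv0 : 0 ≤ v)
    (huv : 0 < 1 - u * v) (h10 : A ≤ K) (h01 : C ≤ K)
    (h1u : A + 2 * B * u + C * u ^ 2 ≤ K) (hv1 : A * v ^ 2 + 2 * B * v + C ≤ K) :
    A * x ^ 2 + 2 * B * x * y + C * y ^ 2 ≤ K := by
  rcases le_or_gt y (u * x) with h | h
  · rcases hu0.eq_or_lt with h0 | h0
    · have hy : y = 0 := le_antisymm (by rw [← h0] at h; linarith) hy0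
      have h2 := hpsd 1 0
      have hx2 : x ^ 2 ≤ 1 := by nlinarith
      have hA : 0 ≤ A := by linarith
      rw [hy]
      nlinarith
    · have hq : y / u ≤ x := by
        rw [div_le_iff₀ h0]; linarith
      have hq0 : 0 ≤ y / u := by positivity
      have := quad_tri (A := A) (B := B) (C := C) (K := K) (a := x - y / u) (b := y / u) (P1 := 1)
        (P2 := 0) (Q1 := 1) (Q2 := u) hpsd (by linarith) hq0 (by linarith) (by linarith)
        (by linarith)
      have e1 : (x - y / u) * 1 + y / u * 1 = x := by ring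
      have e2 : (x - y / u) * 0 + y / u * u = y := by field_simp; ring
      rwa [e1, e2] at this
  · rcases le_or_gt x (v * y) with h' | h'
    · rcases hv0.eq_or_lt with h0 | h0
      · have hx : x = 0 := le_antisymm (by rw [← h0] at h'; linarith) hx0
        have h2 := hpsd 0 1
        have hy2 : y ^ 2 ≤ 1 := by nlinarith
        have hC : 0 ≤ C := by linarith
        rw [hx]
        nlinarith
      · have hq : x / v ≤ y := by
          rw [div_le_iff₀ h0]; linarith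
        have hq0 : 0 ≤ x / v := by positivity
        have := quad_tri (A := A) (B := B) (C := C) (K := K) (a := y - x / v) (b := x / v) (P1 := 0)
          (P2 := 1) (Q1 := v) (Q2 := 1) hpsd (by linarith) hq0 (by linarith) (by linarith)
          (by linarith)
        have e1 : (y - x / v) * 0 + x / v * v = x := by field_simp; ring
        have e2 : (y - x / v) * 1 + x / v * 1 = y := by ring
        rwa [e1, e2] at this
    · obtain ⟨a, ha⟩ : ∃ a, a = (x - v * y) / (1 - u * v) := ⟨_, rfl⟩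
      obtain ⟨b, hb⟩ : ∃ b, b = (y - u * x) / (1 - u * v) := ⟨_, rfl⟩
      have ha' : a * (1 - u * v) = x - v * y := by rw [ha, div_mul_cancel₀ _ huv.ne']
      have hb' : b * (1 - u * v) = y - u * x := by rw [hb, div_mul_cancel₀ _ huv.ne']
      have ha0 : 0 ≤ a := by rw [ha]; exact div_nonneg (by linarith) huv.le
      have hb0 : 0 ≤ b := by rw [hb]; exact div_nonneg (by linarith) huv.le
      have hne : (1 - u * v) ≠ 0 := huv.ne'
      have e1 : a * 1 + b * v = x := by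
        apply mul_right_cancel₀ hne
        linear_combination ha' + v * hb'
      have e2 : a * u + b * 1 = y := by
        apply mul_right_cancel₀ hne
        linear_combination u * ha' + hb'
      have hab : a + b = s * y + t * x := by
        rw [← e1, ← e2]
        linear_combination (-a) * hu - b * hv
      have := quad_tri (A := A) (B := B) (C := C) (K := K) (a := a) (b := b) (P1 := 1)
        (P2 := u) (Q1 := v) (Q2 := 1) hpsd ha0 hb0 (by linarith) (by linarith) (by linarith)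
      rwa [e1, e2] at this

/-- three clusters, one of which is light -/
theorem cl {w x y z : ℝ} (hw : 1 / 2 ≤ w) (hx : 0 ≤ x) (hy : 0 ≤ y) (hz : 0 ≤ z) (hxw : x ≤ w)
    (hsum : x + y + z = 3 - w) : x * y + y * z + z * x ≤ 2 := by
  obtain ⟨a, ha⟩ : ∃ a, a = 3 - w := ⟨_, rfl⟩
  have hw' : w = 3 - a := by linarith
  subst hw'
  have h1 : y * z ≤ (y + z) ^ 2 / 4 := by nlinarith [sq_nonneg (y - z)]
  have h2 : y + z = a - x := by linarith
  have h3 : x * y + y * z + z * x ≤ x * (a - x) + (a - x) ^ 2 / 4 := by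
    rw [← h2]
    linarith
  refine h3.trans ?_
  have ha0 : 0 ≤ a := by linarith
  rcases le_or_gt a (9 / 4) with h | h
  · nlinarith [sq_nonneg (x - a / 3), mul_nonneg ha0 (sub_nonneg.2 h)]
  · nlinarith [mul_nonneg (sub_nonneg.2 hxw) (by linarith : (0 : ℝ) ≤ a - 9 / 4),
      mul_nonneg (sub_nonneg.2 hxw) (sub_nonneg.2 hxw), mul_nonneg hx (sub_nonneg.2 hxw),
      mul_nonneg (sub_nonneg.2 h.le) (by linarith : (0 : ℝ) ≤ 5 / 2 - a)]

end Pool.Agent.H716.SH
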