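import Pool.Agent.H716.SH.Planar
import Pool.Graph.R_pool_sql_team_seeded_3997aac3.Q116.LP.Wt

/-!
# Three contact points of large volume

Variant of `Q116.LP.weight2` (same Carathéodory argument, same code for the first part).
-/

set_option autoImplicit false

open Finset

namespace Pool.Agent.H716.SH

open Q116.LP (ps)

/-- a decomposition of the identity along at most five vectors of the plane -/
theorem planar_card {κ : Type} [Fintype κ] (hcard : Fintype.card κ ≤ 5) {a b c : κ → ℝ} {w : ℝ}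
    (hw : 1 / 2 ≤ w) (hc : ∀ i, 0 ≤ c i) (hcw : ∀ i, c i ≤ w) (hs : ∑ i, c i = 3 - w)
    (h11 : ∑ i, c i * a i ^ 2 = 1) (h22 : ∑ i, c i * b i ^ 2 = 1)
    (h12 : ∑ i, c i * (a i * b i) = 0) : ∃ i j, 1 / 2 ≤ (a i * b j - a j * b i) ^ 2 := by
  classical
  obtain ⟨g⟩ : Nonempty (κ ↪ Fin 5) :=
    Function.Embedding.nonempty_of_card_le (by rw [Fintype.card_fin]; exact hcard)
  have hg := g.injective
  set A : Fin 5 → ℝ := Function.extend g a 0 with hA
  set B : Fin 5 → ℝ := Function.extend g b 0 with hB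
  set C : Fin 5 → ℝ := Function.extend g c 0 with hC
  have A1 : ∀ i, A (g i) = a i := fun i => hg.extend_apply _ _ _
  have B1 : ∀ i, B (g i) = b i := fun i => hg.extend_apply _ _ _
  have C1 : ∀ i, C (g i) = c i := fun i => hg.extend_apply _ _ _
  have A0 : ∀ m, m ∉ Set.range g → A m = 0 := fun m hm => by
    rw [hA, Function.extend_apply' _ _ _ (by simpa using hm)]; rfl
  have B0 : ∀ m, m ∉ Set.range g → B m = 0 := fun m hm => by
    rw [hB, Function.extend_apply' _ _ _ (by simpa using hm)]; rfl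
  have C0 : ∀ m, m ∉ Set.range g → C m = 0 := fun m hm => by
    rw [hC, Function.extend_apply' _ _ _ (by simpa using hm)]; rfl
  have hsum : ∀ (f : κ → ℝ) (h : Fin 5 → ℝ), (∀ m, m ∉ Set.range g → h m = 0) →
      (∀ i, f i = h (g i)) → ∑ i, f i = ∑ m, h m := fun f h h0 h1 =>
    Fintype.sum_of_injective g hg f h h0 h1
  obtain ⟨m, m', hm⟩ := planar (a := A) (b := B) (c := C) (w := w) hw
    (fun m => by
      by_cases h : m ∈ Set.range g
      · obtain ⟨i, rfl⟩ := h; rw [C1]; exact hc i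
      · rw [C0 m h])
    (fun m => by
      by_cases h : m ∈ Set.range g
      · obtain ⟨i, rfl⟩ := h; rw [C1]; exact hcw i
      · rw [C0 m h]; linarith)
    (by rw [← hs]; exact (hsum _ _ C0 fun i => (C1 i).symm).symm)
    (by
      rw [← h11]
      exact (hsum _ _ (fun m hm => by rw [C0 m hm]; ring) fun i => by rw [C1, A1]).symm)
    (by
      rw [← h22]
      exact (hsum _ _ (fun m hm => by rw [C0 m hm]; ring) fun i => by rw [C1, B1]).symm)
    (by
      rw [← h12]
      exact (hsum _ _ (fun m hm => by rw [C0 m hm]; ring) fun i => by rw [C1, A1, B1]).symm)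
  by_cases h : m ∈ Set.range g
  · by_cases h' : m' ∈ Set.range g
    · obtain ⟨i, rfl⟩ := h
      obtain ⟨j, rfl⟩ := h'
      rw [A1, A1, B1, B1] at hm
      exact ⟨i, j, hm⟩
    · rw [A0 m' h', B0 m' h'] at hm
      norm_num at hm
  · rw [A0 m h, B0 m h] at hm
    norm_num at hm

/-- a decomposition of the identity along unit vectors has a vector `e` such that for any
orthonormal vectors `x, y` orthogonal to `e` two of the vectors have projections with the cross
product at least `1 / √2` -/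
theorem weight3 {ι : Type} [Fintype ι] {v : ι → Fin 3 → ℝ} {c : ι → ℝ} (hc : ∀ i, 0 < c i)
    (hv : ∀ i, v i ⬝ᵥ v i = 1) (hs : ∑ i, c i • Matrix.vecMulVec (v i) (v i) = 1) :
    ∃ i, ∀ x y : Fin 3 → ℝ, x ⬝ᵥ v i = 0 → y ⬝ᵥ v i = 0 → x ⬝ᵥ x = 1 → y ⬝ᵥ y = 1 →
      (x + y) ⬝ᵥ (x + y) = 2 →
      ∃ j l, 1 / 2 ≤ ((x ⬝ᵥ v j) * (y ⬝ᵥ v l) - (x ⬝ᵥ v l) * (y ⬝ᵥ v j)) ^ 2 := by
  classical
  have hent : ∀ a b : Fin 3, ∑ i, c i * (v i a * v i b) = (1 : Matrix (Fin 3) (Fin 3) ℝ) a b := by
    intro a b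
    rw [← hs, Matrix.sum_apply]
    refine sum_congr rfl fun i _ => ?_
    simp [Matrix.vecMulVec_apply]
  have hv' : ∀ i, v i 0 ^ 2 + v i 1 ^ 2 + v i 2 ^ 2 = 1 := by
    intro i
    have := hv i
    simp only [dotProduct, Fin.sum_univ_three] at this
    linarith [this]
  have hsum : ∑ i, c i = 3 := by
    have h : ∑ i, c i = ∑ i, (c i * (v i 0 * v i 0) + c i * (v i 1 * v i 1)
        + c i * (v i 2 * v i 2)) := by
      refine sum_congr rfl fun i _ => ?_
      linear_combination (-(c i)) * hv' i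
    rw [h, sum_add_distrib, sum_add_distrib, hent, hent, hent]
    simp
    norm_num
  set tg : Fin 5 → ℝ := ![1 / 3, 1 / 3, 0, 0, 0] with htg
  have hmem : tg ∈ convexHull ℝ (Set.range fun i => ps (v i)) := by
    have h1 : tg = ∑ i, (c i / 3) • ps (v i) := by
      funext k
      rw [Finset.sum_apply]
      fin_cases k
      · have := hent 0 0
        simp only [Matrix.one_apply_eq] at this
        simp only [htg, ps, Pi.smul_apply, smul_eq_mul]
        show (1 / 3 : ℝ) = ∑ i, c i / 3 * (v i 0 ^ 2)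
        rw [← this, sum_div]
        exact sum_congr rfl fun i _ => by ring
      · have := hent 1 1
        simp only [Matrix.one_apply_eq] at this
        simp only [htg, ps, Pi.smul_apply, smul_eq_mul]
        show (1 / 3 : ℝ) = ∑ i, c i / 3 * (v i 1 ^ 2)
        rw [← this, sum_div]
        exact sum_congr rfl fun i _ => by ring
      · have := hent 0 1
        rw [Matrix.one_apply_ne (by decide)] at this
        simp only [htg, ps, Pi.smul_apply, smul_eq_mul]
        show (0 : ℝ) = ∑ i, c i / 3 * (v i 0 * v i 1)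
        rw [← zero_div 3, ← this, sum_div]
        exact sum_congr rfl fun i _ => by ring
      · have := hent 0 2
        rw [Matrix.one_apply_ne (by decide)] at this
        simp only [htg, ps, Pi.smul_apply, smul_eq_mul]
        show (0 : ℝ) = ∑ i, c i / 3 * (v i 0 * v i 2)
        rw [← zero_div 3, ← this, sum_div]
        exact sum_congr rfl fun i _ => by ring
      · have := hent 1 2
        rw [Matrix.one_apply_ne (by decide)] at this
        simp only [htg, ps, Pi.smul_apply, smul_eq_mul]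
        show (0 : ℝ) = ∑ i, c i / 3 * (v i 1 * v i 2)
        rw [← zero_div 3, ← this, sum_div]
        exact sum_congr rfl fun i _ => by ring
    rw [h1]
    refine (convex_convexHull ℝ _).sum_mem (fun i _ => by have := hc i; positivity) ?_
      fun i _ => subset_convexHull ℝ _ ⟨i, rfl⟩
    rw [← sum_div, hsum]; norm_num
  obtain ⟨κ, hκ, z, w, hz, haff, hw, hw1, hwz⟩ := eq_pos_convex_span_of_mem_convexHull hmem
  have hcard : Fintype.card κ ≤ 6 := by
    have h1 := haff.card_le_finrank_succ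
    have h2 : Module.finrank ℝ (vectorSpan ℝ (Set.range z)) ≤ 5 := by
      refine le_trans (Submodule.finrank_le _) ?_
      simp
    omega
  have hch : ∀ k, ∃ i, ps (v i) = z k := fun k => hz ⟨k, rfl⟩
  choose f hf using hch
  have hwz' : ∀ a : Fin 5, ∑ k, w k * z k a = tg a := by
    intro a
    rw [← hwz, Finset.sum_apply]
    rfl
  have z0 : ∀ k, z k 0 = v (f k) 0 ^ 2 := fun k => by rw [← hf k]; rfl
  have z1 : ∀ k, z k 1 = v (f k) 1 ^ 2 := fun k => by rw [← hf k]; rfl
  have z2 : ∀ k, z k 2 = v (f k) 0 * v (f k) 1 := fun k => by rw [← hf k]; rfl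
  have z3 : ∀ k, z k 3 = v (f k) 0 * v (f k) 2 := fun k => by rw [← hf k]; rfl
  have z4 : ∀ k, z k 4 = v (f k) 1 * v (f k) 2 := fun k => by rw [← hf k]; rfl
  have hquad : ∀ x : Fin 3 → ℝ, ∑ k, 3 * w k * (x ⬝ᵥ v (f k)) ^ 2 = x ⬝ᵥ x := by
    intro x
    have e : ∀ k, 3 * w k * (x ⬝ᵥ v (f k)) ^ 2 = 3 * (x 0 ^ 2 - x 2 ^ 2) * (w k * z k 0)
        + 3 * (x 1 ^ 2 - x 2 ^ 2) * (w k * z k 1) + 6 * x 0 * x 1 * (w k * z k 2)
        + 6 * x 0 * x 2 * (w k * z k 3) + 6 * x 1 * x 2 * (w k * z k 4)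
        + 3 * x 2 ^ 2 * w k := by
      intro k
      rw [z0, z1, z2, z3, z4]
      simp only [dotProduct, Fin.sum_univ_three]
      linear_combination (3 * x 2 ^ 2 * w k) * hv' (f k)
    rw [sum_congr rfl fun k _ => e k]
    simp only [sum_add_distrib, ← mul_sum, hwz', hw1]
    simp only [htg, dotProduct, Fin.sum_univ_three]
    show 3 * (x 0 ^ 2 - x 2 ^ 2) * (1 / 3) + 3 * (x 1 ^ 2 - x 2 ^ 2) * (1 / 3)
      + 6 * x 0 * x 1 * 0 + 6 * x 0 * x 2 * 0 + 6 * x 1 * x 2 * 0 + 3 * x 2 ^ 2 * 1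
      = x 0 * x 0 + x 1 * x 1 + x 2 * x 2
    ring
  have hne : Nonempty κ := by
    by_contra hemp
    rw [not_nonempty_iff] at hemp
    simp at hw1
  -- the largest weight
  obtain ⟨k, hk⟩ := Finite.exists_max w
  have hk6 : 1 / 6 ≤ w k := by
    by_contra hcon
    push Not at hcon
    have h1 : ∑ k, w k < ∑ _k : κ, (1 / 6 : ℝ) :=
      sum_lt_sum_of_nonempty univ_nonempty fun j _ => (hk j).trans_lt hcon
    rw [hw1, sum_const, card_univ, nsmul_eq_mul] at h1
    have h2 : (Fintype.card κ : ℝ) ≤ 6 := by exact_mod_cast hcard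
    linarith
  refine ⟨f k, fun x y hx hy hxx hyy hxy => ?_⟩
  have split : ∀ g : κ → ℝ, ∑ j, g j = g k + ∑ j : {j // j ≠ k}, g j := by
    intro g
    rw [← add_sum_erase univ g (mem_univ k)]
    congr 1
    refine (Finset.sum_subtype _ (fun j => ?_) g)
    simp
  have qa := hquad x
  have qb := hquad y
  have qc := hquad (x + y)
  rw [split] at qa qb qc
  simp only [add_dotProduct] at qc
  rw [hx, hxx] at qa
  rw [hy, hyy] at qb
  rw [hx, hy] at qc
  have qs := hw1
  rw [split] at qs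
  obtain ⟨j, l, hjl⟩ := planar_card (κ := {j // j ≠ k})
    (by
      have h1 : Fintype.card {j // j ≠ k} = Fintype.card κ - 1 := by
        rw [Fintype.card_subtype_compl, Fintype.card_subtype_eq]
      omega)
    (a := fun j => x ⬝ᵥ v (f j)) (b := fun j => y ⬝ᵥ v (f j)) (c := fun j => 3 * w j)
    (w := 3 * w k) (by linarith) (fun j => by have := hw j; positivity)
    (fun j => by have := hk j; linarith)
    (by rw [← mul_sum]; linarith)
    (by simpa using qa) (by simpa using qb)
    (by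
      have e : ∑ j : {j // j ≠ k}, 3 * w j * (x ⬝ᵥ v (f j) + y ⬝ᵥ v (f j)) ^ 2
          = ∑ j : {j // j ≠ k}, 3 * w j * (x ⬝ᵥ v (f j)) ^ 2
            + ∑ j : {j // j ≠ k}, 3 * w j * (y ⬝ᵥ v (f j)) ^ 2
            + 2 * ∑ j : {j // j ≠ k}, 3 * w j * ((x ⬝ᵥ v (f j)) * (y ⬝ᵥ v (f j))) := by
        rw [mul_sum, ← sum_add_distrib, ← sum_add_distrib]
        exact sum_congr rfl fun j _ => by ring
      have e2 : (x + y) ⬝ᵥ (x + y) = 2 := hxy
      simp only [add_dotProduct] at e2
      rw [e] at qc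
      simp only [add_zero, ne_eq, OfNat.ofNat_ne_zero, not_false_eq_true, zero_pow, mul_zero,
        zero_add] at qa qb qc
      rw [qa, qb] at qc
      linarith)
  exact ⟨f j, f l, hjl⟩

end Pool.Agent.H716.SH
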