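import Pool.Graph.R_seed8.Y498.ML.Top
import Pool.Graph.R_pool_sql_team_seeded_3997aac3.Q116.LP.Top
import Pool.Agent.H716.SH.Wt
import Pool.Agent.H716.SH.Geo

/-!
# Every convex body in space has a lattice packing of density at least `2 / (9 √(1 - √6 / 12))`
-/

set_option autoImplicit false

namespace Pool.Agent.H716.SH

open MeasureTheory Filter Topology Matrix
open scoped ENNReal
open Pool.Agent.H349R2.Tet
open Pool.Agent.TH219.DL
open Pool.Agent.Y498.ML (loewner rot)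
open Q116.LP (diff_nhds diff_convex diff_symm)

/-- every convex body has a linear image of diameter one with a vertical chord of length one and
two chords whose shadows span a parallelogram of area at least `1 / √2` -/
theorem normal3 {K : Set V} (hK : Body K) : ∃ L : V ≃ₗ[ℝ] V,
    (∀ x ∈ L '' K, ∀ y ∈ L '' K, (x 0 - y 0) ^ 2 + (x 1 - y 1) ^ 2 + (x 2 - y 2) ^ 2 ≤ 1) ∧
    (∃ x0, x0 ∈ G (L '' K) 1) ∧
    ∃ x ∈ L '' K, ∃ y ∈ L '' K, ∃ x' ∈ L '' K, ∃ y' ∈ L '' K,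
      1 / 2 ≤ ((x 1 - y 1) * (x' 2 - y' 2) - (x 2 - y 2) * (x' 1 - y' 1)) ^ 2 := by
  obtain ⟨hc, hv, hne⟩ := hK
  set D : Set V := (fun p : V × V => p.1 - p.2) '' (K ×ˢ K) with hD
  have hDc : IsCompact D := (hc.prod hc).image (continuous_fst.sub continuous_snd)
  obtain ⟨L, hdet, hL1, ι, hι, v, c, hcp, hvu, hsum, hcon⟩ :=
    loewner (by norm_num) hDc (diff_convex hv) diff_symm (diff_nhds hne)
  obtain ⟨i, hi⟩ := weight3 hcp hvu hsum
  obtain ⟨O, hO1, hO2⟩ := rot (hvu i)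
  have hOd : ∀ x y : V, (O *ᵥ x) ⬝ᵥ (O *ᵥ y) = x ⬝ᵥ y := by
    intro x y
    rw [dotProduct_mulVec, ← mulVec_transpose, mulVec_mulVec, hO1, one_mulVec]
  have hOdet : O.det ≠ 0 := by
    intro h
    have := congrArg Matrix.det hO1
    rw [det_mul, det_transpose, h] at this
    simp at this
  have hMdet : LinearMap.det (Matrix.toLin' (O * L)) ≠ 0 := by
    rw [LinearMap.det_toLin', det_mul]
    exact mul_ne_zero hOdet hdet.ne'
  set E := LinearMap.equivOfDetNeZero _ hMdet with hE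
  have hEa : ∀ x : V, E x = O *ᵥ (L *ᵥ x) := by
    intro x
    show Matrix.toLin' (O * L) x = _
    rw [toLin'_apply, ← mulVec_mulVec]
  refine ⟨E, ?_, ?_, ?_⟩
  · rintro _ ⟨x, hx, rfl⟩ _ ⟨y, hy, rfl⟩
    have h1 := hL1 (x - y) ⟨(x, y), ⟨hx, hy⟩, rfl⟩
    rw [← hOd, ← hEa, map_sub] at h1
    simp only [dotProduct, Fin.sum_univ_three, Pi.sub_apply] at h1
    linarith
  · obtain ⟨_, ⟨⟨a, b⟩, ⟨ha, hb⟩, rfl⟩, hab⟩ := hcon i
    simp only at hab
    have h1 : E a - E b = ![1, 0, 0] := by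
      rw [← map_sub, hEa, hab, hO2]
    refine ⟨pr (E b), E b 0, ?_, ?_⟩
    · rw [cs_pr]; exact ⟨b, hb, rfl⟩
    · have e : cs (E b 0 + 1) (pr (E b)) = E a := by
        have h0 := congrFun h1 0
        have h2 := congrFun h1 1
        have h3 := congrFun h1 2
        simp only [Pi.sub_apply, cons_val_zero, cons_val_one, cons_val] at h0 h2 h3
        symm
        apply cs_ext
        · linarith
        · simp only [pr_zero]; linarith
        · simp only [pr_one]; linarith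
      rw [e]
      exact ⟨a, ha, rfl⟩
  · have hOO : O * Oᵀ = 1 := mul_eq_one_comm.1 hO1
    have hdot : ∀ f y : V, (Oᵀ *ᵥ f) ⬝ᵥ y = f ⬝ᵥ (O *ᵥ y) := by
      intro f y
      rw [mulVec_transpose, dotProduct_mulVec]
    have hxi : ∀ p q : ℝ, (Oᵀ *ᵥ (![0, p, q] : V)) ⬝ᵥ v i = 0 := by
      intro p q
      rw [hdot, hO2]
      simp [dotProduct, Fin.sum_univ_three]
    have hxx : ∀ p q : ℝ, (Oᵀ *ᵥ (![0, p, q] : V)) ⬝ᵥ (Oᵀ *ᵥ (![0, p, q] : V))
        = p ^ 2 + q ^ 2 := by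
      intro p q
      rw [hdot, mulVec_mulVec, hOO, one_mulVec]
      simp [dotProduct, Fin.sum_univ_three]
      ring
    have hadd : Oᵀ *ᵥ (![0, 1, 0] : V) + Oᵀ *ᵥ (![0, 0, 1] : V) = Oᵀ *ᵥ (![0, 1, 1] : V) := by
      rw [← mulVec_add]
      congr 1
      funext m
      fin_cases m <;> simp
    obtain ⟨j, l, hjl⟩ := hi (Oᵀ *ᵥ (![0, 1, 0] : V)) (Oᵀ *ᵥ (![0, 0, 1] : V)) (hxi 1 0) (hxi 0 1)
      (by rw [hxx]; norm_num) (by rw [hxx]; norm_num) (by rw [hadd, hxx]; norm_num)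
    obtain ⟨_, ⟨⟨a, b⟩, ⟨ha, hb⟩, rfl⟩, hab⟩ := hcon j
    obtain ⟨_, ⟨⟨a', b'⟩, ⟨ha', hb'⟩, rfl⟩, hab'⟩ := hcon l
    simp only at hab hab'
    refine ⟨E a, ⟨a, ha, rfl⟩, E b, ⟨b, hb, rfl⟩, E a', ⟨a', ha', rfl⟩, E b', ⟨b', hb', rfl⟩, ?_⟩
    refine hjl.trans (le_of_eq ?_)
    rw [← hab, ← hab']
    simp only [hdot]
    rw [← hEa, ← hEa, map_sub, map_sub]
    simp [dotProduct, Fin.sum_univ_three]
    ring

/-- every convex body in space has a lattice packing of density at least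
`2 / (9 √(1 - √6 / 12))` -/
theorem low {K : Set V} (hK : Body K) :
    ENNReal.ofReal (2 / (9 * √(1 - √6 / 12))) ≤ dL K := by
  obtain ⟨L, h1, ⟨x0, h2⟩, h3⟩ := normal3 hK
  obtain ⟨hc, hv, hne⟩ := hK
  have himg : (L '' K) = (fun x => L x + 0) '' K := by
    apply Set.image_congr
    intro x _
    simp
  have hc' : IsCompact (L '' K) := hc.image (LinearMap.continuous_of_finiteDimensional L.toLinearMap)
  have hv' : Convex ℝ (L '' K) := hv.linear_image L.toLinearMap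
  have hne' : (interior (L '' K)).Nonempty := by
    rw [himg, pack_interior_image]
    exact hne.image _
  obtain ⟨b, hb1, hb2⟩ := geo_low hc' hv' hne' h1 h2 h3
  set b' : Fin 3 → V := fun i => L.symm (b i) with hb'
  have hbb : (fun i => L (b' i)) = b := by
    funext i
    simp [hb']
  have hpk : Packs K b' := by
    rw [← packs_image K L 0 b', hbb, ← himg]
    exact hb1
  have hb0 : dt b ≠ 0 := ((packs_iff _ _).1 hb1).1
  have hb0' : dt b' ≠ 0 := ((packs_iff _ _).1 hpk).1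
  rw [dL_eq]
  have hle : dens K b' ≤ deltaL K := by
    unfold deltaL
    exact le_iSup₂_of_le b' hpk le_rfl
  refine le_trans ?_ hle
  rw [dens_eq b' ((dt_ne_zero_iff b').1 hb0') _ hc, ← ratio_image K L 0 b' hb0', hbb, ← himg]
  rw [ENNReal.le_div_iff_mul_le (Or.inl (by
    rw [ne_eq, ENNReal.ofReal_eq_zero, not_le]; exact abs_pos.2 hb0))
    (Or.inl ENNReal.ofReal_ne_top)]
  exact hb2

end Pool.Agent.H716.SH
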